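import Pool.Agent.H69A.Num

/-!
# H69A/Cnt: at least half of all points are good

Module `H69A/Cnt`. A point `Z < 2 ^ (b * d)` which is not good has a digit `j < d` in the interval
`[p * (2 ^ b / p), 2 ^ b)`, which has fewer than `p` elements (`Nat.div_add_mod`). For every `j < d` and
every `c < 2 ^ b` exactly (at most is enough) `2 ^ (b * (d - 1))` numbers `Z < 2 ^ (b * d)` have the digit
`dgt b Z j = c` (the map `Z ↦ Z % 2 ^ (b * j) + 2 ^ (b * j) * (Z / 2 ^ (b * (j + 1)))` is injective on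
them, with values `< 2 ^ (b * (d - 1))`). So at most `d * p * 2 ^ (b * (d - 1))` points are not good, and
`2 * (d * p) ≤ 2 ^ b`. (For `d = 0` there is one point and it is good.) `Finset.card_biUnion_le`,
`Finset.card_le_card_of_injOn`, `Finset.card_filter_add_card_filter_not` (or similar).
-/

set_option autoImplicit false

namespace LSA

theorem cnt_decomp (b j Z : ℕ) : Z = Z % 2 ^ (b * j) +
    2 ^ (b * j) * (dgt b Z j + 2 ^ b * (Z / 2 ^ (b * (j + 1)))) := by
  unfold dgt
  have e : Z / 2 ^ (b * (j + 1)) = Z / 2 ^ (b * j) / 2 ^ b := by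
    rw [Nat.div_div_eq_div_mul, ← pow_add]
    congr 2
  rw [e, Nat.mod_add_div, Nat.mod_add_div]

theorem card_digit {b d j c : ℕ} (hj : j < d) :
    ((Finset.range (2 ^ (b * d))).filter fun Z => dgt b Z j = c).card ≤ 2 ^ (b * (d - 1)) := by
  have hc : (Finset.range (2 ^ (b * (d - 1)))).card = 2 ^ (b * (d - 1)) := Finset.card_range _
  rw [← hc]
  refine Finset.card_le_card_of_injOn
    (fun Z => Z % 2 ^ (b * j) + 2 ^ (b * j) * (Z / 2 ^ (b * (j + 1)))) ?_ ?_
  · intro Z hZ
    have hZ' : Z < 2 ^ (b * d) ∧ dgt b Z j = c := by simpa using hZ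
    have h1 : Z / 2 ^ (b * (j + 1)) < 2 ^ (b * (d - 1 - j)) := by
      rw [Nat.div_lt_iff_lt_mul (by positivity), ← pow_add]
      have : b * (d - 1 - j) + b * (j + 1) = b * d := by
        rw [← mul_add]; congr 1; omega
      rw [this]; exact hZ'.1
    have h2 : Z % 2 ^ (b * j) < 2 ^ (b * j) := Nat.mod_lt _ (by positivity)
    have h3 : 2 ^ (b * (d - 1)) = 2 ^ (b * j) * 2 ^ (b * (d - 1 - j)) := by
      rw [← pow_add, ← mul_add]; congr 2; omega
    have h4 : 2 ^ (b * j) * (Z / 2 ^ (b * (j + 1)) + 1) ≤ 2 ^ (b * j) * 2 ^ (b * (d - 1 - j)) :=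
      Nat.mul_le_mul_left _ h1
    simp only [Finset.coe_range, Set.mem_Iio]
    rw [h3]
    nlinarith
  · intro Z hZ W hW hZW
    have hZ' : Z < 2 ^ (b * d) ∧ dgt b Z j = c := by simpa using hZ
    have hW' : W < 2 ^ (b * d) ∧ dgt b W j = c := by simpa using hW
    simp only at hZW
    have hz : Z % 2 ^ (b * j) < 2 ^ (b * j) := Nat.mod_lt _ (by positivity)
    have hw : W % 2 ^ (b * j) < 2 ^ (b * j) := Nat.mod_lt _ (by positivity)
    have hpos : 0 < 2 ^ (b * j) := by positivity
    have hm : Z % 2 ^ (b * j) = W % 2 ^ (b * j) := by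
      have h := congrArg (· % 2 ^ (b * j)) hZW
      simpa [Nat.add_mul_mod_self_left] using h
    have hd : Z / 2 ^ (b * (j + 1)) = W / 2 ^ (b * (j + 1)) := by
      rw [hm] at hZW
      exact Nat.eq_of_mul_eq_mul_left hpos (Nat.add_left_cancel hZW)
    rw [cnt_decomp b j Z, cnt_decomp b j W, hm, hd, hZ'.2, hW'.2]

open Classical in
theorem card_gd {p d b : ℕ} (hp : 0 < p) (h : 2 * (d * p) ≤ 2 ^ b) :
    2 ^ (b * d) ≤ 2 * ((Finset.range (2 ^ (b * d))).filter fun Z => gd p d b Z).card := by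
  have hsplit : ((Finset.range (2 ^ (b * d))).filter fun Z => gd p d b Z).card +
      ((Finset.range (2 ^ (b * d))).filter fun Z => ¬ gd p d b Z).card = 2 ^ (b * d) := by
    rw [Finset.card_filter_add_card_filter_not, Finset.card_range]
  rcases Nat.eq_zero_or_pos d with hd | hd
  · subst hd
    have : ((Finset.range (2 ^ (b * 0))).filter fun Z => ¬ gd p 0 b Z) = ∅ := by
      apply Finset.filter_eq_empty_iff.mpr
      intro Z _ hZ
      exact hZ (fun j hj => absurd hj (Nat.not_lt_zero j))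
    rw [this] at hsplit
    simp only [Finset.card_empty, add_zero] at hsplit
    rw [hsplit]
    omega
  have hbad : ((Finset.range (2 ^ (b * d))).filter fun Z => ¬ gd p d b Z).card ≤
      d * (p * 2 ^ (b * (d - 1))) := by
    have hsub : ((Finset.range (2 ^ (b * d))).filter fun Z => ¬ gd p d b Z) ⊆
        (Finset.range d).biUnion fun j => (Finset.Ico (p * (2 ^ b / p)) (2 ^ b)).biUnion fun c =>
          (Finset.range (2 ^ (b * d))).filter fun Z => dgt b Z j = c := by
      intro Z hZ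
      obtain ⟨hZ1, hZ2⟩ := Finset.mem_filter.mp hZ
      unfold gd at hZ2
      push Not at hZ2
      obtain ⟨j, hj, hjd⟩ := hZ2
      simp only [Finset.mem_biUnion, Finset.mem_filter, Finset.mem_Ico]
      exact ⟨j, Finset.mem_range.mpr hj, dgt b Z j, ⟨hjd, dgt_lt b Z j⟩, hZ1, rfl⟩
    refine (Finset.card_le_card hsub).trans ?_
    refine (Finset.card_biUnion_le).trans ?_
    have : ∀ j ∈ Finset.range d, ((Finset.Ico (p * (2 ^ b / p)) (2 ^ b)).biUnion fun c =>
          (Finset.range (2 ^ (b * d))).filter fun Z => dgt b Z j = c).card ≤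
          p * 2 ^ (b * (d - 1)) := by
      intro j hj
      refine (Finset.card_biUnion_le).trans ?_
      refine (Finset.sum_le_card_nsmul _ _ _
        (fun c _ => card_digit (b := b) (c := c) (Finset.mem_range.mp hj))).trans ?_
      rw [smul_eq_mul, Nat.card_Ico]
      refine Nat.mul_le_mul_right _ ?_
      have h1 := Nat.mod_lt (2 ^ b) hp
      have h2 := Nat.div_add_mod (2 ^ b) p
      omega
    refine (Finset.sum_le_card_nsmul _ _ _ this).trans ?_
    rw [smul_eq_mul, Finset.card_range]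
  have hpow : 2 ^ (b * d) = 2 ^ b * 2 ^ (b * (d - 1)) := by
    rw [← pow_add]
    congr 1
    have : d = (d - 1) + 1 := by omega
    conv_lhs => rw [this]
    ring
  have h2 : 2 * (d * (p * 2 ^ (b * (d - 1)))) ≤ 2 ^ (b * d) := by
    rw [hpow]
    calc 2 * (d * (p * 2 ^ (b * (d - 1)))) = 2 * (d * p) * 2 ^ (b * (d - 1)) := by ring
      _ ≤ 2 ^ b * 2 ^ (b * (d - 1)) := Nat.mul_le_mul_right _ h
  omega

end LSA
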