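import Pool.Agent.H69A.Inv

/-!
# H69A/Coef: the coefficients

Module `H69A/Coef`. In `ZMod p`, `m < p`, by induction on `t ≤ m`:
`∏ i < t, (m - i) * (i + 1)⁻¹ = (m choose t)`, from `Nat.choose_succ_right_eq`
(`m.choose (t + 1) * (t + 1) = m.choose t * (m - t)`); `cast_inv` for `i + 1 ≤ m < p`.
-/

set_option autoImplicit false

namespace LSA

theorem cf_prod_aux {p : ℕ} [Fact p.Prime] {m : ℕ} (hm : m < p) : ∀ {t : ℕ}, t ≤ m →
    ((∏ i ∈ Finset.range t, (m - i) * inv p (i + 1) : ℕ) : ZMod p) = (m.choose t : ZMod p) := by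
  intro t
  induction t with
  | zero => intro _; simp
  | succ t ih =>
    intro ht
    rw [Finset.prod_range_succ, Nat.cast_mul, ih (by omega), Nat.cast_mul]
    have hnd : ¬ p ∣ (t + 1) := by
      intro h
      have := Nat.le_of_dvd (by omega) h
      omega
    rw [cast_inv hnd]
    have h0 : (((t + 1 : ℕ)) : ZMod p) ≠ 0 := by
      intro h
      exact hnd ((ZMod.natCast_eq_zero_iff _ _).1 h)
    have h1 : ((m.choose (t + 1) * (t + 1) : ℕ) : ZMod p) = ((m.choose t * (m - t) : ℕ) : ZMod p) := by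
      rw [Nat.choose_succ_right_eq]
    rw [Nat.cast_mul, Nat.cast_mul] at h1
    rw [← mul_assoc, ← h1, mul_assoc, mul_inv_cancel₀ h0, mul_one]

theorem cast_cf {p : ℕ} [Fact p.Prime] {m t : ℕ} (hm : m < p) (ht : t ≤ m) :
    ((cf p m t : ℕ) : ZMod p) = - ((-1) ^ t * (m.choose t : ZMod p)) := by
  have hp : p.Prime := Fact.out
  unfold cf
  split_ifs with h
  · rw [ZMod.natCast_mod, cf_prod_aux hm ht]
    have ho : Odd t := Nat.odd_iff.2 h
    rw [ho.neg_one_pow]
    ring
  · rw [Nat.cast_sub (Nat.mod_lt _ hp.pos).le, ZMod.natCast_mod, cf_prod_aux hm ht]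
    have he : Even t := Nat.even_iff.2 (by omega)
    rw [he.neg_one_pow]
    simp

end LSA
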