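import Pool.Agent.H69A.FnB

/-!
# H69A/FnDec: the decoder belongs to every class (helper17)
-/

set_option autoImplicit false

namespace LSA

open LSC

variable {C : NClass} [Calc C] {α : Type} [Ctx α]

protected theorem Fn.cf {p m t : α → ℕ} (hp : Fn C p) (hm : Fn C m) (ht : Fn C t)
    (h0 : ∀ a, 0 < p a) : Fn C (fun a => cf (p a) (m a) (t a)) := by
  have h1 : Fn C (fun q : α × ℕ => (m q.1 - q.2) * inv (p q.1) (q.2 + 1)) := by
    have h2 : Fn C (fun q : α × ℕ => m q.1) := by fun_prop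
    have h3 : Fn C (fun q : α × ℕ => p q.1) := by fun_prop
    fun_prop
  have h4 : Fn C (fun a => (∏ i ∈ Finset.range (t a), (m a - i) * inv (p a) (i + 1)) % p a) :=
    Fn.prodmod (f := fun a i => (m a - i) * inv (p a) (i + 1)) ht h1 hp h0
  unfold cf
  exact Fn.ite (by fun_prop) h4 (hp.sub h4)

/-- the exponents are linear -/
theorem bd_lin (e : ℕ) : ∃ c, ∀ n, 1 ≤ n → bb e n * dd e n ≤ c * 2 ^ n := by
  obtain ⟨c, hc⟩ := nn_le e
  refine ⟨c, fun n hn => le_trans ?_ (hc n hn)⟩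
  unfold nn
  omega

theorem b_lin (e : ℕ) : ∃ c, ∀ n, 1 ≤ n → bb e n ≤ c * 2 ^ n := by
  obtain ⟨c, hc⟩ := bd_lin e
  refine ⟨c, fun n hn => le_trans ?_ (hc n hn)⟩
  have : 1 ≤ dd e n := Nat.succ_le_succ (Nat.zero_le _)
  exact Nat.le_mul_of_pos_right _ this

theorem s_lin (e : ℕ) : ∃ c, ∀ n, 1 ≤ n → 3 * n + e + 1 ≤ c * 2 ^ n := by
  refine ⟨3 + e + 1, fun n _ => ?_⟩
  have h1 : n + 1 ≤ 2 ^ n := Nat.lt_two_pow_self
  nlinarith

protected theorem Fn.mv (e : ℕ) {s y t Z : α → ℕ} (hs : Fn C s) (h : Sm s) (hy : Fn C y)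
    (ht : Fn C t) (hZ : Fn C Z) :
    Fn C (fun a => mv (pp e (s a)) (dd e (s a)) (s a) (bb e (s a)) (y a) (t a) (Z a)) := by
  have hp := Fn.pp (C := C) e hs h
  have hd := Fn.dd (C := C) e hs h
  have hb := Fn.bb (C := C) e hs
  have hp' : Fn C (fun q : α × ℕ => pp e (s q.1)) := hp.comp Fn.fst
  have hd' : Fn C (fun q : α × ℕ => dd e (s q.1)) := hd.comp Fn.fst
  have hb' : Fn C (fun q : α × ℕ => bb e (s q.1)) := hb.comp Fn.fst
  have hs' : Fn C (fun q : α × ℕ => s q.1) := hs.comp Fn.fst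
  have hy' : Fn C (fun q : α × ℕ => y q.1) := hy.comp Fn.fst
  have ht' : Fn C (fun q : α × ℕ => t q.1) := ht.comp Fn.fst
  have hZ' : Fn C (fun q : α × ℕ => Z q.1) := hZ.comp Fn.fst
  have hj' : Fn C (fun q : α × ℕ => q.2) := Fn.snd
  obtain ⟨c, hc⟩ := h.lin (bd_lin e)
  have hpow : Fn C (fun q : α × ℕ => 2 ^ (bb e (s q.1) * min q.2 (dd e (s q.1)))) := by
    refine Fn.pow2 (by fun_prop) c fun q => ?_
    have h1 := hc q.1
    have h2 : bb e (s q.1) * min q.2 (dd e (s q.1)) ≤ bb e (s q.1) * dd e (s q.1) :=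
      Nat.mul_le_mul_left _ (min_le_right _ _)
    have h3 : sz q.1 ≤ sz q := by
      obtain ⟨a, b⟩ := q
      rw [sz_prod]
      exact Nat.le_add_right _ _
    exact h2.trans (h1.trans (Nat.mul_le_mul_left c (by omega)))
  have hdg : Fn C (fun q : α × ℕ => dgt (s q.1) (y q.1) q.2) := Fn.dgt hs' hy' hj'
  have hdg2 : Fn C (fun q : α × ℕ => dgt (bb e (s q.1)) (Z q.1) q.2) := Fn.dgt hb' hZ' hj'
  have key : Fn C (fun q : α × ℕ => ((dgt (s q.1) (y q.1) q.2 + t q.1 *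
      (dgt (bb e (s q.1)) (Z q.1) q.2 + (pp e (s q.1) - dgt (s q.1) (y q.1) q.2))) % pp e (s q.1) +
      pp e (s q.1) * (dgt (bb e (s q.1)) (Z q.1) q.2 / pp e (s q.1))) *
        2 ^ (bb e (s q.1) * min q.2 (dd e (s q.1)))) := by
    fun_prop
  have h4 := Fn.sum (f := fun a j => ((dgt (s a) (y a) j + t a *
      (dgt (bb e (s a)) (Z a) j + (pp e (s a) - dgt (s a) (y a) j))) % pp e (s a) +
      pp e (s a) * (dgt (bb e (s a)) (Z a) j / pp e (s a))) *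
        2 ^ (bb e (s a) * min j (dd e (s a)))) hd key
  refine h4.congr fun a => ?_
  unfold mv
  refine Finset.sum_congr rfl fun j hj => ?_
  rw [min_eq_left (Finset.mem_range.1 hj).le]

protected theorem Pr.gd (e : ℕ) {s Z : α → ℕ} (hs : Fn C s) (h : Sm s) (hZ : Fn C Z) :
    Pr C (fun a => gd (pp e (s a)) (dd e (s a)) (bb e (s a)) (Z a)) := by
  have hp := Fn.pp (C := C) e hs h
  have hd := Fn.dd (C := C) e hs h
  have hb := Fn.bb (C := C) e hs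
  obtain ⟨c, hc⟩ := h.lin (b_lin e)
  have hpow : Fn C (fun a => 2 ^ bb e (s a)) := Fn.pow2 hb c hc
  have hp' : Fn C (fun q : α × ℕ => pp e (s q.1)) := hp.comp Fn.fst
  have hb' : Fn C (fun q : α × ℕ => bb e (s q.1)) := hb.comp Fn.fst
  have hZ' : Fn C (fun q : α × ℕ => Z q.1) := hZ.comp Fn.fst
  have hpow' : Fn C (fun q : α × ℕ => 2 ^ bb e (s q.1)) := hpow.comp Fn.fst
  have hj' : Fn C (fun q : α × ℕ => q.2) := Fn.snd
  unfold gd
  refine Pr.all (p := fun a j => dgt (bb e (s a)) (Z a) j <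
    pp e (s a) * (2 ^ bb e (s a) / pp e (s a))) hd ?_
  have hdg2 : Fn C (fun q : α × ℕ => dgt (bb e (s q.1)) (Z q.1) q.2) := Fn.dgt hb' hZ' hj'
  exact Pr.lt hdg2 (hp'.mul (hpow'.div hp'))

protected theorem Fn.Bv (e : ℕ) {s Z : α → ℕ} {Q : α → ℕ → Prop} (hs : Fn C s) (h : Sm s)
    (hQ : Pr C (fun q : α × ℕ => Q q.1 q.2)) (hZ : Fn C Z) :
    Fn C (fun a => Bv e (s a) (Q a) (Z a)) := by
  classical
  have hn := Fn.pow_nn (C := C) e hs h
  have hw := Fn.pow_ww (C := C) e hs h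
  obtain ⟨c, hc⟩ := h.lin (s_lin e)
  have hs' : Fn C (fun q : α × ℕ => s q.1) := hs.comp Fn.fst
  have hj' : Fn C (fun q : α × ℕ => q.2) := Fn.snd
  have hpow : Fn C (fun q : α × ℕ => 2 ^ min q.2 (3 * s q.1 + e + 1)) := by
    refine Fn.pow2 (by fun_prop) c fun q => ?_
    have h1 := hc q.1
    have h3 : sz q.1 ≤ sz q := by
      obtain ⟨a, b⟩ := q
      rw [sz_prod]
      exact Nat.le_add_right _ _
    exact (min_le_right _ _).trans (h1.trans (Nat.mul_le_mul_left c (by omega)))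
  have hn' : Fn C (fun q : α × ℕ => 2 ^ nn e (s q.1)) := hn.comp Fn.fst
  have hw' : Fn C (fun q : α × ℕ => 2 ^ ww e (s q.1)) := hw.comp Fn.fst
  have hZ' : Fn C (fun q : α × ℕ => Z q.1) := hZ.comp Fn.fst
  have ha' : Fn C (fun q : α × ℕ => q.1) := Fn.fst
  have hQ' : Pr C (fun q : α × ℕ => Q q.1 (2 ^ nn e (s q.1) + (q.2 + 2 ^ ww e (s q.1) * Z q.1))) :=
    hQ.comp (f := fun q : α × ℕ =>
      (q.1, 2 ^ nn e (s q.1) + (q.2 + 2 ^ ww e (s q.1) * Z q.1))) (ha'.pair (by fun_prop))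
  have h4 := Fn.sum (f := fun a i => if Q a (2 ^ nn e (s a) + (i + 2 ^ ww e (s a) * Z a)) then
    2 ^ min i (3 * s a + e + 1) else 0) (n := fun a => 3 * s a + e + 1) (by fun_prop)
    (Fn.ite hQ' hpow (Fn.const 0))
  refine h4.congr fun a => ?_
  unfold Bv
  refine Finset.sum_congr rfl fun i hi => ?_
  rw [min_eq_left (Finset.mem_range.1 hi).le]

protected theorem Pr.dc (e : ℕ) {s y : α → ℕ} {Q : α → ℕ → Prop} (hs : Fn C s) (h : Sm s)
    (hQ : Pr C (fun q : α × ℕ => Q q.1 q.2)) (hy : Fn C y) :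
    Pr C (fun a => dc e (s a) (Q a) (y a)) := by
  classical
  have hN := Fn.pow_bd (C := C) e hs h
  have hp0 : ∀ n, 0 < pp e n := fun n => (pp_spec (e := e) (s := n)).1.pos
  have hfst : Fn C (fun q : α × ℕ => q.1) := Fn.fst
  have hs1 : Fn C (fun q : α × ℕ => s q.1) := hs.comp Fn.fst
  have h1 : Sm (fun q : α × ℕ => s q.1) := h.comp hfst
  have hy1 : Fn C (fun q : α × ℕ => y q.1) := hy.comp Fn.fst
  have hZ1 : Fn C (fun q : α × ℕ => q.2) := Fn.snd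
  have hfst2 : Fn C (fun q : (α × ℕ) × ℕ => q.1) := Fn.fst
  have hs2 : Fn C (fun q : (α × ℕ) × ℕ => s q.1.1) := hs1.comp Fn.fst
  have h2 : Sm (fun q : (α × ℕ) × ℕ => s q.1.1) := h1.comp hfst2
  have hy2 : Fn C (fun q : (α × ℕ) × ℕ => y q.1.1) := hy1.comp Fn.fst
  have hZ2 : Fn C (fun q : (α × ℕ) × ℕ => q.1.2) := hZ1.comp Fn.fst
  have ht2 : Fn C (fun q : (α × ℕ) × ℕ => q.2 + 1) := Fn.succ Fn.snd
  have hp1 : Fn C (fun q : α × ℕ => pp e (s q.1)) := Fn.pp e hs1 h1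
  have hp2 : Fn C (fun q : (α × ℕ) × ℕ => pp e (s q.1.1)) := Fn.pp e hs2 h2
  have hm1 : Fn C (fun q : α × ℕ => mm e (s q.1)) := Fn.mm e hs1 h1
  have hm2 : Fn C (fun q : (α × ℕ) × ℕ => mm e (s q.1.1)) := Fn.mm e hs2 h2
  have hcf : Fn C (fun q : (α × ℕ) × ℕ => cf (pp e (s q.1.1)) (mm e (s q.1.1)) (q.2 + 1)) :=
    Fn.cf hp2 hm2 ht2 fun _ => hp0 _
  have hmv : Fn C (fun q : (α × ℕ) × ℕ => mv (pp e (s q.1.1)) (dd e (s q.1.1)) (s q.1.1)
      (bb e (s q.1.1)) (y q.1.1) (q.2 + 1) q.1.2) := Fn.mv e hs2 h2 hy2 ht2 hZ2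
  have hQ2 : Pr C (fun q : ((α × ℕ) × ℕ) × ℕ => Q q.1.1.1 q.2) :=
    hQ.comp (f := fun q : ((α × ℕ) × ℕ) × ℕ => (q.1.1.1, q.2)) (by fun_prop)
  have hBv : Fn C (fun q : (α × ℕ) × ℕ => Bv e (s q.1.1) (Q q.1.1)
      (mv (pp e (s q.1.1)) (dd e (s q.1.1)) (s q.1.1)
      (bb e (s q.1.1)) (y q.1.1) (q.2 + 1) q.1.2)) :=
    Fn.Bv (Q := fun q : (α × ℕ) × ℕ => Q q.1.1) e hs2 h2 hQ2 hmv
  have hvl : Fn C (fun q : α × ℕ => vl (pp e (s q.1)) (dd e (s q.1)) (s q.1) (bb e (s q.1))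
      (mm e (s q.1)) (Bv e (s q.1) (Q q.1)) (y q.1) q.2) := by
    unfold vl
    refine Fn.mod ?_ hp1
    exact Fn.sum (f := fun (q : α × ℕ) t => cf (pp e (s q.1)) (mm e (s q.1)) (t + 1) *
      Bv e (s q.1) (Q q.1) (mv (pp e (s q.1)) (dd e (s q.1)) (s q.1)
      (bb e (s q.1)) (y q.1) (t + 1) q.2)) hm1 (hcf.mul hBv)
  have hgd : Pr C (fun q : α × ℕ => gd (pp e (s q.1)) (dd e (s q.1)) (bb e (s q.1)) q.2) :=
    Pr.gd e hs1 h1 hZ1
  have c1 := Fn.count (p := fun a Z => gd (pp e (s a)) (dd e (s a)) (bb e (s a)) Z) hN hgd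
  have c2 := Fn.count (p := fun a Z => gd (pp e (s a)) (dd e (s a)) (bb e (s a)) Z ∧
    vl (pp e (s a)) (dd e (s a)) (s a) (bb e (s a)) (mm e (s a)) (Bv e (s a) (Q a)) (y a) Z = 1)
    hN (hgd.and (Pr.eq hvl (Fn.const 1)))
  have key := Pr.lt c1 ((Fn.const 2).mul c2)
  refine key.congr fun a => ?_
  unfold dc dec
  constructor
  · intro h
    convert h
  · intro h
    convert h

end LSA
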