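import Pool.Agent.H69A.Defs

/-!
# H69A/Num: digits

Module `H69A/Num`. Elementary facts on digits in base `2 ^ b`. Proof: induction on `d`, with
`Finset.sum_range_succ` (compare `LSC.digits_lt`, `LSC.digits_get` in `Pool/Agent/H85P/Graph.lean`, which
do the same for sums over `Fin k`). For `sum_dgt`: induction on `d`, `Z = Z % 2 ^ (b * d) + ...`
(`Nat.mod_add_div`, `Nat.mod_pow_succ`, or `dgt b Z j = dgt b (Z % 2 ^ (b * d)) j` for `j < d`).
-/

set_option autoImplicit false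

namespace LSA

theorem dgt_lt (b Z j : ℕ) : dgt b Z j < 2 ^ b := Nat.mod_lt _ (by positivity)

theorem dsum_lt {b d : ℕ} (v : ℕ → ℕ) (hv : ∀ j < d, v j < 2 ^ b) :
    ∑ j ∈ Finset.range d, v j * 2 ^ (b * j) < 2 ^ (b * d) := by
  induction d with
  | zero => simp
  | succ d ih =>
    rw [Finset.sum_range_succ]
    have h1 := ih (fun j hj => hv j (by omega))
    have h2 : v d + 1 ≤ 2 ^ b := hv d (by omega)
    have h3 : (v d + 1) * 2 ^ (b * d) ≤ 2 ^ b * 2 ^ (b * d) := Nat.mul_le_mul_right _ h2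
    have h4 : 2 ^ (b * (d + 1)) = 2 ^ b * 2 ^ (b * d) := by rw [mul_add, pow_add, mul_one, mul_comm]
    rw [h4]
    calc ∑ j ∈ Finset.range d, v j * 2 ^ (b * j) + v d * 2 ^ (b * d)
        < 2 ^ (b * d) + v d * 2 ^ (b * d) := by omega
      _ = (v d + 1) * 2 ^ (b * d) := by ring
      _ ≤ _ := h3

private theorem dgt_add {b d : ℕ} (S q : ℕ) {i : ℕ} (hi : i < d) :
    dgt b (S + q * 2 ^ (b * d)) i = dgt b S i := by
  unfold dgt
  obtain ⟨e, rfl⟩ : ∃ e, d = i + 1 + e := ⟨d - i - 1, by omega⟩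
  have h1 : q * 2 ^ (b * (i + 1 + e)) = 2 ^ (b * i) * (2 ^ b * (q * 2 ^ (b * e))) := by
    rw [mul_add, mul_add, pow_add, pow_add, mul_one]
    ring
  rw [h1, Nat.add_mul_div_left _ _ (by positivity), Nat.add_mul_mod_self_left]

private theorem dgt_top {b d : ℕ} {S q : ℕ} (hS : S < 2 ^ (b * d)) (hq : q < 2 ^ b) :
    dgt b (S + q * 2 ^ (b * d)) d = q := by
  unfold dgt
  rw [Nat.add_mul_div_right _ _ (by positivity), Nat.div_eq_of_lt hS, zero_add, Nat.mod_eq_of_lt hq]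

theorem dgt_dsum {b d : ℕ} (v : ℕ → ℕ) (hv : ∀ j < d, v j < 2 ^ b) {i : ℕ} (hi : i < d) :
    dgt b (∑ j ∈ Finset.range d, v j * 2 ^ (b * j)) i = v i := by
  induction d with
  | zero => omega
  | succ d ih =>
    rw [Finset.sum_range_succ]
    have hv' : ∀ j < d, v j < 2 ^ b := fun j hj => hv j (by omega)
    rcases Nat.lt_succ_iff_lt_or_eq.mp hi with h | h
    · rw [dgt_add _ _ h]
      exact ih hv' h
    · subst h
      exact dgt_top (dsum_lt v hv') (hv _ hi)

theorem sum_dgt {b d Z : ℕ} (h : Z < 2 ^ (b * d)) :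
    ∑ j ∈ Finset.range d, dgt b Z j * 2 ^ (b * j) = Z := by
  induction d generalizing Z with
  | zero =>
    simp at h
    simp [h]
  | succ d ih =>
    rw [Finset.sum_range_succ]
    have hZ : Z % 2 ^ (b * d) + Z / 2 ^ (b * d) * 2 ^ (b * d) = Z := by
      rw [Nat.mul_comm (Z / 2 ^ (b * d))]
      exact Nat.mod_add_div _ _
    have hS : Z % 2 ^ (b * d) < 2 ^ (b * d) := Nat.mod_lt _ (by positivity)
    have h4 : 2 ^ (b * (d + 1)) = 2 ^ b * 2 ^ (b * d) := by rw [mul_add, pow_add, mul_one, mul_comm]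
    have hq : Z / 2 ^ (b * d) < 2 ^ b := by
      apply Nat.div_lt_of_lt_mul
      rw [mul_comm, ← h4]
      exact h
    have h1 : ∑ j ∈ Finset.range d, dgt b Z j * 2 ^ (b * j) = Z % 2 ^ (b * d) := by
      rw [← ih hS]
      apply Finset.sum_congr rfl
      intro j hj
      rw [Finset.mem_range] at hj
      conv_lhs => rw [← hZ, dgt_add _ _ hj]
    have h2 : dgt b Z d = Z / 2 ^ (b * d) := by
      conv_lhs => rw [← hZ, dgt_top hS hq]
    rw [h1, h2, hZ]

theorem dgt_ext {b d Z Z' : ℕ} (h : Z < 2 ^ (b * d)) (h' : Z' < 2 ^ (b * d))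
    (he : ∀ j < d, dgt b Z j = dgt b Z' j) : Z = Z' := by
  rw [← sum_dgt h, ← sum_dgt h']
  apply Finset.sum_congr rfl
  intro j hj
  rw [he j (Finset.mem_range.mp hj)]

end LSA
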