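import Pool.Agent.H69A.Par
import Pool.Agent.H69A.Num

/-!
# H69A/Lang: words and their parameter

Module `H69A/Lang`. `e ≥ 2`, `s ≥ 1`.

* `sN_eq`: `Nat.size (2 ^ n + x) = n + 1` for `x < 2 ^ n`; `LSC.mu_eq` with `nn_inj`; `s < Nat.size N + 1`
  because `s ≤ 2 ^ s ≤ nn e s` (`nn_ge`).
* `Lh_iff`: unfold `Lh`, `sN_eq` with `x = i + 2 ^ w * Z < 2 ^ nn e s` (`nn e s = w + b * d`),
  `Nat.add_mul_mod_self_left`, `Nat.add_mul_div_left`.
* `Bv_eq`: `ld e s f Z < pp e s < 2 ^ (3 * s + e + 1)` (`pp_spec`), and a number `v < 2 ^ k` is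
  `∑ i < k, if v / 2 ^ i % 2 = 1 then 2 ^ i else 0` (this is `sum_dgt` for `b = 1`).
* `card_bad`: to `Z` with `Bv e s Q Z ≠ ld e s (f s) Z` choose by `Bv_eq` an `i < 3 * s + e + 1 ≤ 2 ^ w`
  with `¬ (Lh ... ↔ Q ...)` at the word with `x = i + 2 ^ w * Z`; this is an injective map (take `x / 2 ^ w`).
-/

set_option autoImplicit false

namespace LSA

open LSC

theorem size_two_pow_add {n x : ℕ} (h : x < 2 ^ n) : Nat.size (2 ^ n + x) = n + 1 := by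
  refine le_antisymm ?_ ?_
  · rw [Nat.size_le, pow_succ]
    omega
  · have : n < Nat.size (2 ^ n + x) := by
      rw [Nat.lt_size]
      omega
    omega

theorem sN_eq {e s x : ℕ} (he : 2 ≤ e) (hs : 1 ≤ s) (hx : x < 2 ^ nn e s) :
    sN e (2 ^ nn e s + x) = s := by
  unfold sN
  rw [size_two_pow_add hx]
  refine mu_eq ?_ ⟨hs, rfl⟩ ?_
  · have h1 := nn_ge (e := e) hs
    have h2 : s < 2 ^ s := Nat.lt_two_pow_self
    have h3 : 1 ≤ 2 ^ (e + 2) := Nat.one_le_two_pow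
    have h4 : 2 ^ s ≤ 2 ^ (e + 2) * (e * 2 ^ s) := by
      calc 2 ^ s = 1 * (1 * 2 ^ s) := by ring
        _ ≤ 2 ^ (e + 2) * (e * 2 ^ s) := by gcongr; omega
    omega
  · rintro j hj ⟨h1, h2⟩
    have h3 := nn_inj he h1 hs (by omega)
    omega

private theorem word_lt {e s i Z : ℕ} (he : 2 ≤ e) (hs : 1 ≤ s)
    (hi : i < 3 * s + e + 1) (hZ : Z < 2 ^ (bb e s * dd e s)) :
    i + 2 ^ ww e s * Z < 2 ^ nn e s := by
  have h1 := bits_le he hs
  unfold nn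
  rw [pow_add]
  have h2 : 2 ^ ww e s * (Z + 1) ≤ 2 ^ ww e s * 2 ^ (bb e s * dd e s) :=
    Nat.mul_le_mul_left _ hZ
  rw [mul_add, mul_one] at h2
  omega

private theorem word_mod {e s i Z : ℕ} (he : 2 ≤ e) (hs : 1 ≤ s)
    (hi : i < 3 * s + e + 1) : (i + 2 ^ ww e s * Z) % 2 ^ ww e s = i := by
  rw [Nat.add_mul_mod_self_left]
  exact Nat.mod_eq_of_lt (lt_of_lt_of_le hi (bits_le he hs))

private theorem word_div {e s i Z : ℕ} (he : 2 ≤ e) (hs : 1 ≤ s)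
    (hi : i < 3 * s + e + 1) : (i + 2 ^ ww e s * Z) / 2 ^ ww e s = Z := by
  rw [Nat.add_mul_div_left _ _ (by positivity),
    Nat.div_eq_of_lt (lt_of_lt_of_le hi (bits_le he hs)), zero_add]

theorem Lh_iff {e s i Z : ℕ} (he : 2 ≤ e) (hs : 1 ≤ s) (f : ℕ → ℕ → Prop)
    (hi : i < 3 * s + e + 1) (hZ : Z < 2 ^ (bb e s * dd e s)) :
    Lh e f (2 ^ nn e s + (i + 2 ^ ww e s * Z)) ↔ ld e s (f s) Z / 2 ^ i % 2 = 1 := by
  have hx := word_lt he hs hi hZ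
  unfold Lh
  rw [sN_eq he hs hx, Nat.add_sub_cancel_left, word_mod he hs hi, word_div he hs hi,
    size_two_pow_add hx]
  have h1 := nn_ge (e := e) hs
  have h2 : s < 2 ^ s := Nat.lt_two_pow_self
  have h3 : 1 ≤ 2 ^ (e + 2) := Nat.one_le_two_pow
  have h4 : 2 ^ s ≤ 2 ^ (e + 2) * (e * 2 ^ s) := by
    calc 2 ^ s = 1 * (1 * 2 ^ s) := by ring
      _ ≤ 2 ^ (e + 2) * (e * 2 ^ s) := by gcongr; omega
  constructor
  · rintro ⟨-, -, h⟩; exact h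
  · intro h; exact ⟨by omega, hi, h⟩

private theorem sum_bits {k v : ℕ} (h : v < 2 ^ k) :
    (∑ i ∈ Finset.range k, if v / 2 ^ i % 2 = 1 then 2 ^ i else 0) = v := by
  have h1 := sum_dgt (b := 1) (d := k) (Z := v) (by rwa [one_mul])
  conv_rhs => rw [← h1]
  refine Finset.sum_congr rfl fun i _ => ?_
  unfold dgt
  rw [one_mul, pow_one]
  split_ifs with h2
  · rw [h2, one_mul]
  · have : v / 2 ^ i % 2 = 0 := by omega
    rw [this, zero_mul]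

theorem Bv_eq {e s Z : ℕ} (he : 2 ≤ e) (hs : 1 ≤ s) (f : ℕ → ℕ → Prop) (Q : ℕ → Prop)
    (hZ : Z < 2 ^ (bb e s * dd e s))
    (h : ∀ i < 3 * s + e + 1, (Lh e f (2 ^ nn e s + (i + 2 ^ ww e s * Z)) ↔
      Q (2 ^ nn e s + (i + 2 ^ ww e s * Z)))) : Bv e s Q Z = ld e s (f s) Z := by
  classical
  have hlt : ld e s (f s) Z < 2 ^ (3 * s + e + 1) := by
    refine lt_of_le_of_lt ?_ ((pp_spec (e := e) (s := s)).2.2 (by omega))
    unfold ld lde
    exact (Nat.mod_lt _ (pp_spec (e := e) (s := s)).1.pos).le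
  rw [← sum_bits hlt]
  unfold Bv
  refine Finset.sum_congr rfl fun i hi => ?_
  have hi' := Finset.mem_range.1 hi
  have h1 : Q (2 ^ nn e s + (i + 2 ^ ww e s * Z)) ↔ ld e s (f s) Z / 2 ^ i % 2 = 1 :=
    (h i hi').symm.trans (Lh_iff he hs f hi' hZ)
  by_cases h2 : ld e s (f s) Z / 2 ^ i % 2 = 1
  · rw [if_pos h2, if_pos (h1.2 h2)]
  · rw [if_neg h2, if_neg (fun h3 => h2 (h1.1 h3))]

open Classical in
theorem card_bad {e s : ℕ} (he : 2 ≤ e) (hs : 1 ≤ s) (f : ℕ → ℕ → Prop) (Q : ℕ → Prop) :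
    ((Finset.range (2 ^ (bb e s * dd e s))).filter fun Z => Bv e s Q Z ≠ ld e s (f s) Z).card ≤
      ((Finset.range (2 ^ nn e s)).filter fun x =>
        ¬ (Lh e f (2 ^ nn e s + x) ↔ Q (2 ^ nn e s + x))).card := by
  refine Finset.card_le_card_of_surjOn (fun x => x / 2 ^ ww e s) ?_
  intro Z hZ
  rw [Finset.mem_coe, Finset.mem_filter, Finset.mem_range] at hZ
  obtain ⟨hZ, hne⟩ := hZ
  obtain ⟨i, hi, hbad⟩ : ∃ i < 3 * s + e + 1, ¬ (Lh e f (2 ^ nn e s + (i + 2 ^ ww e s * Z)) ↔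
      Q (2 ^ nn e s + (i + 2 ^ ww e s * Z))) := by
    by_contra hcon
    push Not at hcon
    exact hne (Bv_eq he hs f Q hZ (fun i hi => by
      have := hcon i hi
      tauto))
  refine ⟨i + 2 ^ ww e s * Z, ?_, word_div he hs hi⟩
  rw [Finset.mem_coe, Finset.mem_filter, Finset.mem_range]
  exact ⟨word_lt he hs hi hZ, hbad⟩

end LSA
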