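import Pool.Agent.H69A.FnLde
import Pool.Agent.H69A.Lang

/-!
# H69A/FnLh: the language belongs to every class which contains the message

Module `H69A/FnLh`. `sN e N` is a `mu` over `s < Nat.size N + 1`; in the body replace `s` by
`min s (Nat.size N)` to be able to use `Fn.nn` (which needs `Sm`): `2 ^ min s (Nat.size N)` is not
linear in the length of `(N, s)`, but the predicate `1 ≤ s ∧ nn e s + 1 = Nat.size N` forces
`2 ^ s ≤ nn e s ≤ Nat.size N` (`nn_ge`, `e ≥ 1`), so it is equivalent to `2 ^ s ≤ Nat.size N ∧ 1 ≤ s ∧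
nn e (min s (Nat.size (Nat.size N))) + 1 = Nat.size N` (`s < Nat.size (Nat.size N)` if `2 ^ s ≤ Nat.size N`;
write the first conjunct as `s < Nat.size (Nat.size N)`, `Nat.lt_size`), and
`2 ^ min s (Nat.size (Nat.size N)) ≤ 2 * Nat.size N` or `1` is linear. The same truncation
`s' = min (sN e N) (Nat.size (Nat.size N))` in `Lh`: if `sN e N ≤ Nat.size N` then (by `mu_spec`)
`1 ≤ sN e N` and `nn e (sN e N) + 1 = Nat.size N`, so `s' = sN e N`. The exponent
`(N - 2 ^ nn) % 2 ^ ww` is used only if it is smaller than `3 * s + e + 1`, replace it by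
`min ((N - 2 ^ nn) % 2 ^ ww) (3 * s' + e + 1)`. `Pr.congr`.
-/

set_option autoImplicit false

namespace LSA

open LSC

variable {C : NClass} [Calc C]

private theorem two_pow_min_le (s N : ℕ) :
    2 ^ min s (Nat.size (Nat.size N)) ≤ 2 * (Nat.size N + 1) := by
  have h1 : 2 ^ min s (Nat.size (Nat.size N)) ≤ 2 ^ Nat.size (Nat.size N) :=
    Nat.pow_le_pow_right (by norm_num) (min_le_right _ _)
  rcases Nat.eq_zero_or_pos (Nat.size N) with h | h
  · rw [h] at h1 ⊢
    simp at h1 ⊢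
  · have h2 := pow_size_le (a := Nat.size N) (by omega)
    omega

private theorem lt_of_nn {e : ℕ} (he : 2 ≤ e) {s N : ℕ} (hs : 1 ≤ s)
    (h : nn e s + 1 = Nat.size N) : s < Nat.size (Nat.size N) := by
  rw [Nat.lt_size]
  have h1 := nn_ge (e := e) hs
  have h2 : 2 ^ s ≤ 2 ^ (e + 2) * (e * 2 ^ s) := by
    have h3 : 1 ≤ 2 ^ (e + 2) := Nat.one_le_two_pow
    have h4 : 1 * 2 ^ s ≤ e * 2 ^ s := Nat.mul_le_mul_right _ (by omega)
    calc 2 ^ s = 1 * (1 * 2 ^ s) := by ring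
      _ ≤ 2 ^ (e + 2) * (e * 2 ^ s) := Nat.mul_le_mul h3 h4
  omega

private theorem Fn.sN {e : ℕ} (he : 2 ≤ e) : Fn C (fun N : ℕ => sN e N) := by
  unfold LSA.sN
  refine Fn.mu (n := fun N : ℕ => Nat.size N + 1)
    (p := fun N s => 1 ≤ s ∧ nn e s + 1 = Nat.size N) (by fun_prop) ?_
  have hm : Fn C (fun q : ℕ × ℕ => min q.2 (Nat.size (Nat.size q.1))) := by fun_prop
  have hsm : Sm (fun q : ℕ × ℕ => min q.2 (Nat.size (Nat.size q.1))) := by
    refine ⟨2, fun q => ?_⟩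
    obtain ⟨N, s⟩ := q
    have h1 := two_pow_min_le s N
    simp only [sz_prod, sz_nat]
    omega
  have hn : Fn C (fun q : ℕ × ℕ => nn e (min q.2 (Nat.size (Nat.size q.1)))) := Fn.nn e hm hsm
  have h2 : Pr C (fun q : ℕ × ℕ => q.2 < Nat.size (Nat.size q.1) ∧ 1 ≤ q.2 ∧
      nn e (min q.2 (Nat.size (Nat.size q.1))) + 1 = Nat.size q.1) := by
    fun_prop
  refine h2.congr fun q => ?_
  obtain ⟨N, s⟩ := q
  show 1 ≤ s ∧ nn e s + 1 = Nat.size N ↔ s < Nat.size (Nat.size N) ∧ 1 ≤ s ∧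
      nn e (min s (Nat.size (Nat.size N))) + 1 = Nat.size N
  constructor
  · rintro ⟨h3, h4⟩
    have h5 := lt_of_nn he h3 h4
    refine ⟨h5, h3, ?_⟩
    rw [min_eq_left h5.le]
    exact h4
  · rintro ⟨h3, h4, h5⟩
    rw [min_eq_left h3.le] at h5
    exact ⟨h4, h5⟩

/-- the truncated parameter -/
private noncomputable def st (e N : ℕ) : ℕ := min (sN e N) (Nat.size (Nat.size N))

private theorem st_eq {e : ℕ} (he : 2 ≤ e) {N : ℕ} (h : sN e N ≤ Nat.size N) : st e N = sN e N := by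
  have h1 := mu_spec (n := Nat.size N + 1) (p := fun s => 1 ≤ s ∧ nn e s + 1 = Nat.size N)
    (show sN e N < Nat.size N + 1 by omega)
  have h2 := lt_of_nn he (s := sN e N) h1.1 h1.2
  exact min_eq_left h2.le

protected theorem Pr.Lh {e : ℕ} (he : 2 ≤ e) {f : ℕ → ℕ → Prop}
    (hf : Pr C (fun q : ℕ × ℕ => f q.1 q.2)) : Pr C (fun N : ℕ => Lh e f N) := by
  have hsN : Fn C (fun N : ℕ => sN e N) := Fn.sN he
  have hst : Fn C (fun N : ℕ => st e N) := by
    unfold st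
    fun_prop
  have hsm : Sm (fun N : ℕ => st e N) := by
    refine ⟨2, fun N => ?_⟩
    have h1 := two_pow_min_le (sN e N) N
    simp only [sz_nat]
    exact h1
  have hnn : Fn C (fun N : ℕ => 2 ^ nn e (st e N)) := Fn.pow_nn e hst hsm
  have hww : Fn C (fun N : ℕ => 2 ^ ww e (st e N)) := Fn.pow_ww e hst hsm
  have hZ : Fn C (fun N : ℕ => (N - 2 ^ nn e (st e N)) / 2 ^ ww e (st e N)) := by fun_prop
  have hi : Fn C (fun N : ℕ => (N - 2 ^ nn e (st e N)) % 2 ^ ww e (st e N)) := by fun_prop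
  have hf' : Pr C (fun q : ℕ × ℕ => f (st e q.1) q.2) := by
    have h1 : Fn C (fun q : ℕ × ℕ => st e q.1) := hst.comp Fn.fst
    have h2 : Fn C (fun q : ℕ × ℕ => (st e q.1, q.2)) := by fun_prop
    exact hf.comp h2
  have hld : Fn C (fun N : ℕ => ld e (st e N) (f (st e N))
      ((N - 2 ^ nn e (st e N)) / 2 ^ ww e (st e N))) := Fn.ld e hst hsm hf' hZ
  have hmin : Fn C (fun N : ℕ => min ((N - 2 ^ nn e (st e N)) % 2 ^ ww e (st e N))
      (3 * st e N + e + 1)) := by fun_prop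
  have hpow : Fn C (fun N : ℕ => 2 ^ min ((N - 2 ^ nn e (st e N)) % 2 ^ ww e (st e N))
      (3 * st e N + e + 1)) := by
    refine Fn.pow2 hmin (e + 4) fun N => ?_
    have h1 : st e N ≤ Nat.size (Nat.size N) := min_le_right _ _
    have h2 := size_le_self (Nat.size N)
    have h3 := min_le_right ((N - 2 ^ nn e (st e N)) % 2 ^ ww e (st e N)) (3 * st e N + e + 1)
    simp only [sz_nat]
    have h4 : 3 * st e N + e + 1 ≤ (e + 4) * (Nat.size N + 1) := by
      nlinarith [Nat.zero_le (e * Nat.size N)]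
    exact h3.trans h4
  have key : Pr C (fun N : ℕ => sN e N ≤ Nat.size N ∧
      (N - 2 ^ nn e (st e N)) % 2 ^ ww e (st e N) < 3 * st e N + e + 1 ∧
      ld e (st e N) (f (st e N)) ((N - 2 ^ nn e (st e N)) / 2 ^ ww e (st e N)) /
        2 ^ min ((N - 2 ^ nn e (st e N)) % 2 ^ ww e (st e N)) (3 * st e N + e + 1) % 2 = 1) := by
    fun_prop
  refine key.congr fun N => ?_
  unfold Lh
  constructor
  · rintro ⟨h1, h2, h3⟩
    rw [st_eq he h1, min_eq_left h2.le]
    exact ⟨h1, h2, h3⟩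
  · rintro ⟨h1, h2, h3⟩
    rw [st_eq he h1] at h2 h3
    rw [min_eq_left h2.le] at h3
    exact ⟨h1, h2, h3⟩

end LSA
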