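import Pool.Agent.H69A.DcOk
import Pool.Agent.H69A.FnDec
import Pool.Agent.H69A.FnLh

/-!
# H69A/Core: the abstract theorem

Let `P` be a predicate of the class `D`; `LocChk` gives the table `F` and the constant `c`. Put `e = c + 2`,
`s a = Nat.size (Nat.size a) + 1`, and let the message with the parameter `s` be
`f s y = F (y % 2 ^ 2 ^ s, y / 2 ^ 2 ^ s)`. The language `Lh e f` is in `D`, the hypothesis gives `Q`, `A`,
and `G (u, a, t) := dc e (s a) (fun N => Q (N, u)) (a + 2 ^ 2 ^ s a * t)` is the table `F` for the right `u`.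
So `P a` holds if and only if `ok (u, a) ∧ out (u, a)` for some `u` of linear length.
-/

set_option autoImplicit false

namespace LSA

open LSC

/-- the message -/
def msg (F : ℕ × ℕ → Prop) (s y : ℕ) : Prop :=
  F (y % 2 ^ min (2 ^ min s (Nat.size y)) (Nat.size y), y / 2 ^ min (2 ^ min s (Nat.size y)) (Nat.size y))

theorem msg_iff (F : ℕ × ℕ → Prop) (s y : ℕ) : msg F s y ↔ F (y % 2 ^ 2 ^ s, y / 2 ^ 2 ^ s) := by
  unfold msg
  by_cases h : 2 ^ s ≤ Nat.size y
  · have h1 : s ≤ Nat.size y := (Nat.lt_two_pow_self).le.trans h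
    rw [min_eq_left h1, min_eq_left h]
  · push Not at h
    have h1 : min (2 ^ min s (Nat.size y)) (Nat.size y) = Nat.size y := by
      refine min_eq_right ?_
      by_cases h2 : s ≤ Nat.size y
      · rw [min_eq_left h2]; exact h.le
      · rw [min_eq_right (by omega)]
        exact (Nat.lt_two_pow_self).le
    have h2 : y < 2 ^ Nat.size y := Nat.lt_size_self y
    have h3 : y < 2 ^ 2 ^ s := h2.trans_le (Nat.pow_le_pow_right (by norm_num) h.le)
    rw [h1, Nat.mod_eq_of_lt h2, Nat.div_eq_of_lt h2, Nat.mod_eq_of_lt h3, Nat.div_eq_of_lt h3]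

theorem Pr.msg {C : NClass} [Calc C] {F : ℕ × ℕ → Prop} (hF : Pr C F) :
    Pr C (fun q : ℕ × ℕ => msg F q.1 q.2) := by
  have h1 : Fn C (fun q : ℕ × ℕ => 2 ^ min q.1 (Nat.size q.2)) :=
    Fn.pow2 (by fun_prop) 1 fun q => by
      obtain ⟨s, y⟩ := q
      rw [sz_prod, sz_nat, sz_nat]
      show min s (Nat.size y) ≤ _
      omega
  have h2 : Fn C (fun q : ℕ × ℕ => 2 ^ min (2 ^ min q.1 (Nat.size q.2)) (Nat.size q.2)) :=
    Fn.pow2 (by fun_prop) 1 fun q => by
      obtain ⟨s, y⟩ := q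
      rw [sz_prod, sz_nat, sz_nat]
      show min (2 ^ min s (Nat.size y)) (Nat.size y) ≤ _
      omega
  exact hF.comp (f := fun q : ℕ × ℕ => (q.2 % 2 ^ min (2 ^ min q.1 (Nat.size q.2)) (Nat.size q.2),
    q.2 / 2 ^ min (2 ^ min q.1 (Nat.size q.2)) (Nat.size q.2))) (by fun_prop)

/-- the parameter of a number -/
def sa (a : ℕ) : ℕ := Nat.size (Nat.size a) + 1

theorem two_pow_sa (a : ℕ) : 2 ^ sa a ≤ 4 * (Nat.size a + 1) := by
  unfold sa
  rw [pow_succ]
  by_cases h : Nat.size a = 0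
  · rw [h]; simp
  · have := pow_size_le h
    omega

theorem size_lt_sa (a : ℕ) : Nat.size a + 1 ≤ 2 ^ sa a := by
  unfold sa
  have := Nat.lt_size_self (Nat.size a)
  rw [pow_succ]
  omega

theorem core {C D : NClass} [Calc C] [Calc D] (hl : LocChk C D) (h : AvgIncl C D) (P : ℕ → Prop)
    (hP : Pr D P) : Pr C P := by
  classical
  obtain ⟨F, c, hF, hG⟩ := hl P hP
  set e := c + 2 with he
  have he2 : 2 ≤ e := by omega
  obtain ⟨Q, A, c', hQ, hA, hav⟩ := h (Lh e (msg F)) (Pr.Lh he2 (Pr.msg hF))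
  -- decoding
  have hdec : ∀ s, 1 ≤ s → ∀ y, y < 2 ^ (s * dd e s) →
      (dc e s (fun N => Q (N, A (nn e s))) y ↔ msg F s y) := fun s hs y hy =>
    dc_iff he2 hs (msg F) (fun N => Q (N, A (nn e s))) (hav (nn e s)) hy
  have hsa : Fn C sa := by unfold sa; fun_prop
  have hSm : Sm sa := ⟨4, fun a => by rw [sz_nat]; exact two_pow_sa a⟩
  -- the table
  have hGC : Pr C (fun q : ℕ × ℕ × ℕ => dc e (sa q.2.1) (fun N => Q (N, q.1))
      (q.2.1 + 2 ^ 2 ^ sa q.2.1 * q.2.2)) := by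
    have hs1 : Fn C (fun q : ℕ × ℕ × ℕ => sa q.2.1) := hsa.comp (by fun_prop)
    have hSm1 : Sm (fun q : ℕ × ℕ × ℕ => sa q.2.1) :=
      Sm.comp (C := C) hSm (g := fun q : ℕ × ℕ × ℕ => q.2.1) (by fun_prop)
    have hpp := Fn.pow_pow hs1 hSm1
    refine Pr.dc e hs1 hSm1 (Q := fun (q : ℕ × ℕ × ℕ) N => Q (N, q.1)) ?_ (by fun_prop)
    exact hQ.comp (f := fun p : (ℕ × ℕ × ℕ) × ℕ => (p.2, p.1.1)) (by fun_prop)
  obtain ⟨ok, out, hok, hout, h1, h2⟩ := hG _ hGC
  -- the bound for the advice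
  obtain ⟨c1, hc1⟩ := nn_le e
  have hadv : ∀ a, Nat.size (A (nn e (sa a))) ≤ c' * (4 * c1 + 1) * (Nat.size a + 1) := by
    intro a
    refine (hA _).trans ?_
    rw [mul_assoc]
    refine Nat.mul_le_mul_left _ ?_
    have h3 := hc1 (sa a) (by unfold sa; omega)
    have h4 := Nat.mul_le_mul_left c1 (two_pow_sa a)
    nlinarith
  have hgood : ∀ a, ok (A (nn e (sa a)), a) := by
    intro a
    refine h2 _ _ fun t ht => ?_
    show dc e (sa a) (fun N => Q (N, A (nn e (sa a)))) (a + 2 ^ 2 ^ sa a * t) ↔ F (a, t)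
    have h3 := size_lt_sa a
    have ha : a < 2 ^ 2 ^ sa a :=
      (Nat.lt_size_self a).trans_le (Nat.pow_le_pow_right (by norm_num) (by omega))
    have ht' : t < 2 ^ (c * 2 ^ sa a) :=
      ht.trans_le (Nat.pow_le_pow_right (by norm_num) (Nat.mul_le_mul_left _ h3))
    have hy : a + 2 ^ 2 ^ sa a * t < 2 ^ (sa a * dd e (sa a)) := by
      have h4 : a + 2 ^ 2 ^ sa a * t < 2 ^ 2 ^ sa a * 2 ^ (c * 2 ^ sa a) := by
        have h5 : 2 ^ 2 ^ sa a * (t + 1) ≤ 2 ^ 2 ^ sa a * 2 ^ (c * 2 ^ sa a) :=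
          Nat.mul_le_mul_left _ ht'
        have h6 : 2 ^ 2 ^ sa a * (t + 1) = 2 ^ 2 ^ sa a * t + 2 ^ 2 ^ sa a := by ring
        omega
      refine h4.trans_le ?_
      rw [← pow_add]
      refine Nat.pow_le_pow_right (by norm_num) ?_
      refine le_trans ?_ (msg_le (e := e) (by unfold sa; omega))
      rw [he]
      nlinarith
    rw [hdec (sa a) (by unfold sa; omega) _ hy, msg_iff, Nat.add_mul_mod_self_left,
      Nat.mod_eq_of_lt ha, Nat.add_mul_div_left _ _ (by positivity), Nat.div_eq_of_lt ha, zero_add]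
  -- the search for the advice
  have key : ∀ a, P a ↔ ∃ u < 2 ^ (c' * (4 * c1 + 1) * (Nat.size a + 1)), ok (u, a) ∧ out (u, a) := by
    intro a
    constructor
    · intro hPa
      exact ⟨_, (Nat.lt_size_self _).trans_le (Nat.pow_le_pow_right (by norm_num) (hadv a)), hgood a,
        (h1 _ _ (hgood a)).2 hPa⟩
    · rintro ⟨u, -, h3, h4⟩
      exact (h1 _ _ h3).1 h4
  refine Pr.congr ?_ key
  refine Pr.ex (n := fun a => 2 ^ (c' * (4 * c1 + 1) * (Nat.size a + 1)))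
    (p := fun a u => ok (u, a) ∧ out (u, a)) ?_ ?_
  · exact Fn.pow2 (by fun_prop) (c' * (4 * c1 + 1)) fun a => by rw [sz_nat]
  · exact (hok.comp (f := fun p : ℕ × ℕ => (p.2, p.1)) (by fun_prop)).and
      (hout.comp (f := fun p : ℕ × ℕ => (p.2, p.1)) (by fun_prop))

end LSA
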