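import Pool.Agent.H69A.DecOk
import Pool.Agent.H69A.Lang

/-!
# H69A/DcOk: decoding from the answers on words of the length `nn e s`
-/

set_option autoImplicit false

namespace LSA

open Classical in
theorem dc_iff {e s : ℕ} (he : 2 ≤ e) (hs : 1 ≤ s) (f : ℕ → ℕ → Prop) (Q : ℕ → Prop)
    (h : nn e s ^ 3 * ((Finset.range (2 ^ nn e s)).filter fun x =>
        ¬ (Lh e f (2 ^ nn e s + x) ↔ Q (2 ^ nn e s + x))).card ≤ 2 ^ nn e s) {y : ℕ}
    (hy : y < 2 ^ (s * dd e s)) : dc e s Q y ↔ f s y := by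
  unfold dc
  refine dec_iff pp_spec.1 (pow_le_pp e s) (by unfold mm; omega) (mm_lt he hs) (two_dp_le he hs)
    (f s) (Bv e s Q) ?_ hy
  have h1 := card_bad he hs f Q
  have h2 := err_lt he hs
  have h3 : ((Finset.range (2 ^ (bb e s * dd e s))).filter fun Z =>
      Bv e s Q Z ≠ lde (pp e s) (dd e s) s (bb e s) (f s) Z).card =
      ((Finset.range (2 ^ (bb e s * dd e s))).filter fun Z => Bv e s Q Z ≠ ld e s (f s) Z).card := rfl
  rw [h3]
  set bad := ((Finset.range (2 ^ (bb e s * dd e s))).filter fun Z =>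
    Bv e s Q Z ≠ ld e s (f s) Z).card with hbad
  set K := ((Finset.range (2 ^ nn e s)).filter fun x =>
        ¬ (Lh e f (2 ^ nn e s + x) ↔ Q (2 ^ nn e s + x))).card with hK
  have h4 : 2 ^ nn e s = 2 ^ ww e s * 2 ^ (bb e s * dd e s) := by
    unfold nn
    rw [pow_add]
  rw [h4] at h
  have h5 : 0 < 2 ^ (bb e s * dd e s) := by positivity
  have h6 : 0 < nn e s ^ 3 := by omega
  have h7 : nn e s ^ 3 * bad ≤ nn e s ^ 3 * K := Nat.mul_le_mul_left _ h1
  by_contra hcon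
  push Not at hcon
  have h8 : nn e s ^ 3 * 2 ^ (bb e s * dd e s) ≤ 4 * mm e s * (nn e s ^ 3 * bad) := by
    calc nn e s ^ 3 * 2 ^ (bb e s * dd e s) ≤ nn e s ^ 3 * (4 * mm e s * bad) :=
          Nat.mul_le_mul_left _ hcon
      _ = _ := by ring
  have h9 : 4 * mm e s * (nn e s ^ 3 * bad) ≤
      4 * mm e s * (2 ^ ww e s * 2 ^ (bb e s * dd e s)) :=
    Nat.mul_le_mul_left _ (h7.trans h)
  have h10 : 4 * mm e s * (2 ^ ww e s * 2 ^ (bb e s * dd e s)) =
      4 * mm e s * 2 ^ ww e s * 2 ^ (bb e s * dd e s) := by ring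
  have h11 : 4 * mm e s * 2 ^ ww e s * 2 ^ (bb e s * dd e s) <
      nn e s ^ 3 * 2 ^ (bb e s * dd e s) := Nat.mul_lt_mul_of_pos_right h2 h5
  omega

end LSA
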