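import Pool.Agent.H69A.Num

/-!
# H69A/Move: the map `mv` on the good points

Module `H69A/Move`. For `Z` with `gd p d b Z`: the digit `j` of `mv p d s b y t Z` is
`r + p * (dgt b Z j / p)` with `r < p`; it is smaller than `p * (2 ^ b / p) ≤ 2 ^ b`, because
`dgt b Z j / p < 2 ^ b / p`. Then `dgt_dsum`, `dsum_lt`. Injectivity for `0 < t < p`, `p` prime: the
quotients of the digits by `p` agree, and the residues of the digits `z, z'` satisfy
`x + t * (z + (p - x)) ≡ x + t * (z' + (p - x))` modulo `p`, so `p ∣ t * (z - z')`; then `dgt_ext`.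
-/

set_option autoImplicit false

namespace LSA

private theorem digit_good {p b z r : ℕ} (hp : 0 < p) (hz : z < p * (2 ^ b / p)) (hr : r < p) :
    r + p * (z / p) < p * (2 ^ b / p) := by
  have h1 : z / p + 1 ≤ 2 ^ b / p := (Nat.div_lt_iff_lt_mul hp).2 (by rwa [mul_comm])
  have h2 : p * (z / p + 1) ≤ p * (2 ^ b / p) := Nat.mul_le_mul_left _ h1
  have h3 : p * (z / p + 1) = p * (z / p) + p := by ring
  omega

private theorem digit_lt {p d s b y t Z : ℕ} (hp : 0 < p) (h : gd p d b Z) : ∀ j < d,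
    (dgt s y j + t * (dgt b Z j + (p - dgt s y j))) % p + p * (dgt b Z j / p) < 2 ^ b := by
  intro j hj
  exact lt_of_lt_of_le (digit_good hp (h j hj) (Nat.mod_lt _ hp)) (Nat.mul_div_le _ _)

theorem dgt_mv {p d s b y t Z j : ℕ} (hp : 0 < p) (h : gd p d b Z) (hj : j < d) :
    dgt b (mv p d s b y t Z) j = (dgt s y j + t * (dgt b Z j + (p - dgt s y j))) % p +
      p * (dgt b Z j / p) := by
  unfold mv
  exact dgt_dsum (fun j => (dgt s y j + t * (dgt b Z j + (p - dgt s y j))) % p +
      p * (dgt b Z j / p)) (digit_lt hp h) hj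

theorem mv_lt {p d s b y t Z : ℕ} (hp : 0 < p) (h : gd p d b Z) :
    mv p d s b y t Z < 2 ^ (b * d) := by
  unfold mv
  exact dsum_lt (fun j => (dgt s y j + t * (dgt b Z j + (p - dgt s y j))) % p +
      p * (dgt b Z j / p)) (digit_lt hp h)

theorem gd_mv {p d s b y t Z : ℕ} (hp : 0 < p) (h : gd p d b Z) : gd p d b (mv p d s b y t Z) := by
  intro j hj
  rw [dgt_mv hp h hj]
  exact digit_good hp (h j hj) (Nat.mod_lt _ hp)

theorem mv_inj {p d s b y t Z Z' : ℕ} (hp : p.Prime) (ht : 0 < t) (htp : t < p) (h : gd p d b Z)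
    (h' : gd p d b Z') (hZ : Z < 2 ^ (b * d)) (hZ' : Z' < 2 ^ (b * d))
    (he : mv p d s b y t Z = mv p d s b y t Z') : Z = Z' := by
  apply dgt_ext hZ hZ'
  intro j hj
  have h1 := dgt_mv (s := s) (y := y) (t := t) hp.pos h hj
  have h2 := dgt_mv (s := s) (y := y) (t := t) hp.pos h' hj
  rw [he, h2] at h1
  set x := dgt s y j
  set z := dgt b Z j
  set z' := dgt b Z' j
  have hr : (x + t * (z + (p - x))) % p < p := Nat.mod_lt _ hp.pos
  have hr' : (x + t * (z' + (p - x))) % p < p := Nat.mod_lt _ hp.pos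
  have hq : z' / p = z / p := by
    have := congrArg (fun n => n / p) h1
    simpa only [Nat.add_mul_div_left _ _ hp.pos, Nat.div_eq_of_lt hr, Nat.div_eq_of_lt hr',
      zero_add] using this
  have hm : (x + t * (z' + (p - x))) % p = (x + t * (z + (p - x))) % p := by
    rw [hq] at h1
    omega
  have hm2 : x + t * (z' + (p - x)) ≡ x + t * (z + (p - x)) [MOD p] := hm
  have hm3 : t * (z' + (p - x)) ≡ t * (z + (p - x)) [MOD p] := Nat.ModEq.add_left_cancel' x hm2
  have hco : Nat.gcd p t = 1 :=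
    (Nat.Prime.coprime_iff_not_dvd hp).2 fun hd => absurd (Nat.le_of_dvd ht hd) (by omega)
  have hm4 : z' + (p - x) ≡ z + (p - x) [MOD p] := Nat.ModEq.cancel_left_of_coprime hco hm3
  have hm5 : z' ≡ z [MOD p] := Nat.ModEq.add_right_cancel' _ hm4
  have hm6 : z' % p = z % p := hm5
  rw [← Nat.div_add_mod z p, ← Nat.div_add_mod z' p, hq, hm6]

end LSA
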