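import Pool.Agent.H69A.Line
import Pool.Agent.H69A.Coef
import Pool.Agent.H69A.Move
import Pool.Agent.H69A.Cnt

/-!
# H69A/DecOk: the decoder is correct

Module `H69A/DecOk`. (helper97)

* `vl_good`: cast to `ZMod p`. With `x j = dgt s y j`, `z j = dgt b Z j` (casts) the digits of
  `mv p d s b y t Z` are `x j + t * (z j - x j)` in `ZMod p` (`dgt_mv`; `dgt s y j < 2 ^ s ≤ p`, so
  `((p - dgt s y j : ℕ) : ZMod p) = - x j`). So `lde ... (mv ... t Z)` is `g.eval t` for the polynomial `g`
  of `line_poly` (degree at most `d * 2 ^ s < m`), `diff_sum` and `cast_cf` give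
  `∑ t < m, cf (t + 1) * g.eval (t + 1) = g.eval 0 = ext (x) = if f y then 1 else 0` (`ext_point`; split off
  the term `t = 0` of `diff_sum` with `Finset.sum_range_succ'`). As `p ≥ 2`, the value modulo `p` of the
  natural number is `1` or `0` (`ZMod.natCast_eq_natCast_iff'`).
* `dec_iff`: let `Bad` be the set of the `Z < 2 ^ (b * d)` with `B Z ≠ lde p d s b f Z` and `S` the set of
  the good `Z < 2 ^ (b * d)`. The set `S'` of the `Z ∈ S` such that `mv ... t Z ∈ Bad` for some
  `t ∈ {1, ..., m}` has at most `m * Bad.card` elements (`mv_inj`, `mv_lt`, `Finset.card_biUnion_le`), so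
  `4 * S'.card < 2 ^ (b * d) ≤ 2 * S.card` (`card_gd`). For `Z ∈ S \ S'` the value `vl` is `1` if and only
  if `f y` (`vl_good`). If `f y`, then the set in `dec` contains `S \ S'`; if not, it is contained in `S'`.
-/

set_option autoImplicit false

namespace LSA

open Classical in
theorem ext_congr {p s d : ℕ} (f : ℕ → Prop) {w w' : ℕ → ZMod p} (h : ∀ j < d, w j = w' j) :
    ext p s d f w = ext p s d f w' := by
  unfold ext
  refine Finset.sum_congr rfl fun y _ => ?_
  by_cases hf : f y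
  · rw [if_pos hf, if_pos hf]
    refine Finset.prod_congr rfl fun j hj => ?_
    rw [h j (Finset.mem_range.1 hj)]
  · rw [if_neg hf, if_neg hf]

open Classical in
theorem vl_good {p d s b m : ℕ} (hp : p.Prime) (hs : 2 ^ s ≤ p) (hm : d * 2 ^ s < m) (hmp : m < p)
    (f : ℕ → Prop) (B : ℕ → ℕ) {y : ℕ} (hy : y < 2 ^ (s * d)) {Z : ℕ} (hZ : gd p d b Z)
    (h : ∀ t, 1 ≤ t → t ≤ m → B (mv p d s b y t Z) = lde p d s b f (mv p d s b y t Z)) :
    vl p d s b m B y Z = if f y then 1 else 0 := by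
  have := Fact.mk hp
  obtain ⟨g, hg1, hg2⟩ := line_poly (p := p) s d f (fun j => ((dgt s y j : ℕ) : ZMod p))
    (fun j => ((dgt b Z j : ℕ) : ZMod p))
  have hval : ∀ t, 1 ≤ t → t ≤ m →
      ((B (mv p d s b y t Z) : ℕ) : ZMod p) = g.eval ((t : ℕ) : ZMod p) := by
    intro t ht1 ht2
    rw [h t ht1 ht2, cast_lde hs, hg2]
    refine ext_congr f fun j hj => ?_
    rw [dgt_mv hp.pos hZ hj]
    have h1 : dgt s y j ≤ p := ((dgt_lt s y j).trans_le hs).le
    rw [Nat.cast_add, ZMod.natCast_mod]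
    push_cast [Nat.cast_sub h1]
    simp only [CharP.cast_eq_zero]
    ring
  have hsum : ((∑ t ∈ Finset.range m, cf p m (t + 1) * B (mv p d s b y (t + 1) Z) : ℕ) : ZMod p) =
      ((if f y then 1 else 0 : ℕ) : ZMod p) := by
    have h0 : ((if f y then 1 else 0 : ℕ) : ZMod p) = g.eval ((0 : ℕ) : ZMod p) := by
      rw [hg2]
      have := ext_point (p := p) hs d f hy
      have h1 : ext p s d f (fun j => ((dgt s y j : ℕ) : ZMod p) + ((0 : ℕ) : ZMod p) *
          (((dgt b Z j : ℕ) : ZMod p) - ((dgt s y j : ℕ) : ZMod p))) =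
          ext p s d f (fun j => ((dgt s y j : ℕ) : ZMod p)) :=
        ext_congr f fun j _ => by rw [Nat.cast_zero, zero_mul, add_zero]
      rw [h1, this]
      by_cases hf : f y
      · simp [hf]
      · simp [hf]
    rw [h0]
    have h2 := diff_sum g m (hg1.trans_lt hm)
    rw [Finset.sum_range_succ'] at h2
    have h3 : ((∑ t ∈ Finset.range m, cf p m (t + 1) * B (mv p d s b y (t + 1) Z) : ℕ) : ZMod p) =
        - ∑ t ∈ Finset.range m, (-1) ^ (t + 1) * (m.choose (t + 1) : ZMod p) *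
          g.eval (((t + 1 : ℕ)) : ZMod p) := by
      rw [Nat.cast_sum, ← Finset.sum_neg_distrib]
      refine Finset.sum_congr rfl fun t ht => ?_
      have ht' := Finset.mem_range.1 ht
      rw [Nat.cast_mul, cast_cf hmp (by omega), hval (t + 1) (by omega) (by omega)]
      ring
    rw [h3]
    have h4 : (-1 : ZMod p) ^ 0 * (m.choose 0 : ZMod p) * g.eval ((0 : ℕ) : ZMod p) =
        g.eval ((0 : ℕ) : ZMod p) := by simp
    rw [h4] at h2
    linear_combination -h2
  unfold vl
  have h5 := (ZMod.natCast_eq_natCast_iff' _ _ _).1 hsum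
  rw [h5]
  have hp2 := hp.two_le
  split_ifs
  · exact Nat.mod_eq_of_lt (by omega)
  · exact Nat.zero_mod p

open Classical in
theorem dec_iff {p d s b m : ℕ} (hp : p.Prime) (hs : 2 ^ s ≤ p) (hm : d * 2 ^ s < m) (hmp : m < p)
    (hb : 2 * (d * p) ≤ 2 ^ b) (f : ℕ → Prop) (B : ℕ → ℕ)
    (hbad : 4 * m * ((Finset.range (2 ^ (b * d))).filter fun Z => B Z ≠ lde p d s b f Z).card <
      2 ^ (b * d)) {y : ℕ} (hy : y < 2 ^ (s * d)) : dec p d s b m B y ↔ f y := by
  have hG := card_gd hp.pos hb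
  set U := Finset.range (2 ^ (b * d)) with hU
  set Bad := U.filter (fun Z => B Z ≠ lde p d s b f Z) with hBad
  set G := U.filter (fun Z => gd p d b Z) with hGdef
  set S' := (Finset.Icc 1 m).biUnion
    (fun t => U.filter (fun Z => gd p d b Z ∧ mv p d s b y t Z ∈ Bad)) with hS'
  have hcard : S'.card ≤ m * Bad.card := by
    refine Finset.card_biUnion_le.trans ?_
    have h1 : ∀ t ∈ Finset.Icc 1 m,
        (U.filter (fun Z => gd p d b Z ∧ mv p d s b y t Z ∈ Bad)).card ≤ Bad.card := by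
      intro t ht
      rw [Finset.mem_Icc] at ht
      apply Finset.card_le_card_of_injOn (fun Z => mv p d s b y t Z)
      · intro Z hZ
        have hZ' := Finset.mem_filter.1 (Finset.mem_coe.1 hZ)
        exact Finset.mem_coe.2 hZ'.2.2
      · intro Z hZ Z' hZ' he
        have h2 := Finset.mem_filter.1 (Finset.mem_coe.1 hZ)
        have h3 := Finset.mem_filter.1 (Finset.mem_coe.1 hZ')
        exact mv_inj hp (by omega) (by omega) h2.2.1 h3.2.1 (Finset.mem_range.1 h2.1)
          (Finset.mem_range.1 h3.1) he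
    refine (Finset.sum_le_sum h1).trans ?_
    rw [Finset.sum_const, Nat.card_Icc, smul_eq_mul, Nat.add_sub_cancel]
  have h2S : 2 * S'.card < G.card := by
    have h1 : 4 * S'.card ≤ 4 * (m * Bad.card) := Nat.mul_le_mul_left _ hcard
    have h2 : 4 * (m * Bad.card) = 4 * m * Bad.card := by ring
    omega
  have hgood : ∀ Z ∈ G, Z ∉ S' → vl p d s b m B y Z = if f y then 1 else 0 := by
    intro Z hZ hZS
    have hZ' := Finset.mem_filter.1 hZ
    refine vl_good hp hs hm hmp f B hy hZ'.2 ?_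
    intro t ht1 ht2
    by_contra hne
    apply hZS
    rw [hS', Finset.mem_biUnion]
    refine ⟨t, Finset.mem_Icc.2 ⟨ht1, ht2⟩, Finset.mem_filter.2 ⟨hZ'.1, hZ'.2, ?_⟩⟩
    exact Finset.mem_filter.2 ⟨Finset.mem_range.2 (mv_lt hp.pos hZ'.2), hne⟩
  unfold dec
  rw [← hU]
  change G.card < 2 * (U.filter (fun Z => gd p d b Z ∧ vl p d s b m B y Z = 1)).card ↔ f y
  by_cases hf : f y
  · refine iff_of_true ?_ hf
    have h1 : G \ S' ⊆ U.filter (fun Z => gd p d b Z ∧ vl p d s b m B y Z = 1) := by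
      intro Z hZ
      rw [Finset.mem_sdiff] at hZ
      have hZ' := Finset.mem_filter.1 hZ.1
      refine Finset.mem_filter.2 ⟨hZ'.1, hZ'.2, ?_⟩
      rw [hgood Z hZ.1 hZ.2, if_pos hf]
    have h2 := Finset.card_le_card h1
    have h3 := Finset.le_card_sdiff S' G
    omega
  · refine iff_of_false ?_ hf
    have h1 : U.filter (fun Z => gd p d b Z ∧ vl p d s b m B y Z = 1) ⊆ S' := by
      intro Z hZ
      have hZ' := Finset.mem_filter.1 hZ
      by_contra hZS
      have h3 := hgood Z (Finset.mem_filter.2 ⟨hZ'.1, hZ'.2.1⟩) hZS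
      rw [if_neg hf, hZ'.2.2] at h3
      exact one_ne_zero h3
    have h2 := Finset.card_le_card h1
    omega

end LSA
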