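import Pool.Agent.H85P.Arith

/-!
# H69A: average case versus worst case for the classes DLBA, LBA, E (MP_b7da94_lc)

The low-degree extension of a truth table, read from binary words, its decoder, and all parameters.
Everything is a function on natural numbers; words are numbers.
-/

set_option autoImplicit false

namespace LSA

open LSC

/-- the digit `j` of `Z` in base `2 ^ b` -/
def dgt (b Z j : ℕ) : ℕ := Z / 2 ^ (b * j) % 2 ^ b

/-- an inverse of `v` modulo `p` -/
noncomputable def inv (p v : ℕ) : ℕ := mu p fun u => v * u % p = 1 % p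

/-- the polynomial in `z` of degree `2 ^ s - 1` modulo `p` with the value `1` at `y` and `0` at all other
numbers below `2 ^ s` -/
noncomputable def del (p s y z : ℕ) : ℕ :=
  (∏ v ∈ Finset.range (2 ^ s), if v = y then 1 else (z + (p - v)) * inv p (y + (p - v))) % p

open Classical in
/-- the low-degree extension of the predicate `f` on the numbers below `2 ^ (s * d)` (as vectors of `d`
digits in base `2 ^ s`), at the point with the coordinates `dgt b Z 0, ..., dgt b Z (d - 1)` -/
noncomputable def lde (p d s b : ℕ) (f : ℕ → Prop) (Z : ℕ) : ℕ :=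
  (∑ y ∈ Finset.range (2 ^ (s * d)), if f y then
    (∏ j ∈ Finset.range d, del p s (dgt s y j) (dgt b Z j)) % p else 0) % p

/-- the coefficient `(-1) ^ (t + 1) * (m choose t)` modulo `p` -/
noncomputable def cf (p m t : ℕ) : ℕ :=
  if t % 2 = 1 then (∏ i ∈ Finset.range t, (m - i) * inv p (i + 1)) % p
  else p - (∏ i ∈ Finset.range t, (m - i) * inv p (i + 1)) % p

/-- the point with the parameter `t` on the line through the point `y` (at `0`) and the point `Z` (at `1`);
the quotients of the coordinates of `Z` by `p` are kept -/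
def mv (p d s b y t Z : ℕ) : ℕ :=
  ∑ j ∈ Finset.range d, ((dgt s y j + t * (dgt b Z j + (p - dgt s y j))) % p +
    p * (dgt b Z j / p)) * 2 ^ (b * j)

/-- the points on which `mv` acts as a permutation -/
def gd (p d b Z : ℕ) : Prop := ∀ j < d, dgt b Z j < p * (2 ^ b / p)

/-- the value at `y` computed from the values `B` on the line through `y` and `Z` -/
noncomputable def vl (p d s b m : ℕ) (B : ℕ → ℕ) (y Z : ℕ) : ℕ :=
  (∑ t ∈ Finset.range m, cf p m (t + 1) * B (mv p d s b y (t + 1) Z)) % p

open Classical in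
/-- the decoder: for more than half of all `Z` the computed value is `1` -/
def dec (p d s b m : ℕ) (B : ℕ → ℕ) (y : ℕ) : Prop :=
  ((Finset.range (2 ^ (b * d))).filter fun Z => gd p d b Z).card <
    2 * ((Finset.range (2 ^ (b * d))).filter fun Z => gd p d b Z ∧ vl p d s b m B y Z = 1).card

/-! ### Parameters; `e ≥ 2` is a constant, `s ≥ 1` -/

/-- the number of coordinates -/
def dd (e s : ℕ) : ℕ := e * 2 ^ s / s + 1

/-- the number of points on a line which are used (more than the degree) -/
def mm (e s : ℕ) : ℕ := dd e s * 2 ^ s + 1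

/-- the prime number -/
noncomputable def pp (e s : ℕ) : ℕ :=
  mu (2 ^ (3 * s + e + 1) + 1) fun i => 2 ^ (3 * s + e) ≤ i ∧ i.Prime

/-- the length of a coordinate -/
def bb (e s : ℕ) : ℕ := 2 ^ (e + 2) * (s + e)

/-- the length of the number of a bit -/
def ww (e s : ℕ) : ℕ := s + e

/-- the length of the words -/
def nn (e s : ℕ) : ℕ := ww e s + bb e s * dd e s

/-- the parameter `s` of the word `N` (the word `w` of length `n` is the number `2 ^ n + w`) -/
noncomputable def sN (e N : ℕ) : ℕ :=
  mu (Nat.size N + 1) fun s => 1 ≤ s ∧ nn e s + 1 = Nat.size N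

/-- the extension of the message with the parameter `s` -/
noncomputable def ld (e s : ℕ) (f : ℕ → Prop) (Z : ℕ) : ℕ := lde (pp e s) (dd e s) s (bb e s) f Z

/-- the language: the word `2 ^ n + (i + 2 ^ w * Z)` belongs to it if the bit `i` of the extension at `Z`
is `1` -/
def Lh (e : ℕ) (f : ℕ → ℕ → Prop) (N : ℕ) : Prop :=
  sN e N ≤ Nat.size N ∧ (N - 2 ^ nn e (sN e N)) % 2 ^ ww e (sN e N) < 3 * sN e N + e + 1 ∧
    ld e (sN e N) (f (sN e N)) ((N - 2 ^ nn e (sN e N)) / 2 ^ ww e (sN e N)) /
      2 ^ ((N - 2 ^ nn e (sN e N)) % 2 ^ ww e (sN e N)) % 2 = 1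

open Classical in
/-- the values computed from the answers `Q` -/
noncomputable def Bv (e s : ℕ) (Q : ℕ → Prop) (Z : ℕ) : ℕ :=
  ∑ i ∈ Finset.range (3 * s + e + 1), if Q (2 ^ nn e s + (i + 2 ^ ww e s * Z)) then 2 ^ i else 0

/-- the decoder applied to the answers `Q` -/
def dc (e s : ℕ) (Q : ℕ → Prop) (y : ℕ) : Prop :=
  dec (pp e s) (dd e s) s (bb e s) (mm e s) (Bv e s Q) y

/-! ### The abstract statement -/

/-- the predicate `f` of the class `D` is locally checkable in `C`: there is a table `F` of the class `D`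
such that every table `G` of the class `C` which depends on an advice `u` can be checked in `C`; if the
check succeeds then `out` is the value of `f`, and the check succeeds if `G` is the table `F` -/
def Loc (C D : NClass) (f : ℕ → Prop) : Prop := ∃ (F : ℕ × ℕ → Prop) (c : ℕ), Pr D F ∧
  ∀ G : ℕ × ℕ × ℕ → Prop, Pr C G → ∃ ok out : ℕ × ℕ → Prop, Pr C ok ∧ Pr C out ∧
    (∀ u a, ok (u, a) → (out (u, a) ↔ f a)) ∧
    ∀ u a, (∀ t < 2 ^ (c * (Nat.size a + 1)), (G (u, a, t) ↔ F (a, t))) → ok (u, a)

/-- every predicate of the class `D` is locally checkable in `C` -/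
def LocChk (C D : NClass) : Prop := ∀ f : ℕ → Prop, Pr D f → Loc C D f

open Classical in
/-- every predicate of the class `D` agrees with a predicate of the class `C` with linear advice on all but
a fraction `1 / n ^ 3` of the words of length `n` -/
def AvgIncl (C D : NClass) : Prop := ∀ P : ℕ → Prop, Pr D P → ∃ (Q : ℕ × ℕ → Prop) (A : ℕ → ℕ) (c : ℕ),
  Pr C Q ∧ (∀ n, Nat.size (A n) ≤ c * (n + 1)) ∧ ∀ n, n ^ 3 *
    ((Finset.range (2 ^ n)).filter fun x => ¬ (P (2 ^ n + x) ↔ Q (2 ^ n + x, A n))).card ≤ 2 ^ n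

/-! ### Definability -/

variable {C : NClass} {α β : Type} [Ctx α] [Ctx β]

/-- `2 ^ s a` is linear in the length of `a` -/
def Sm (s : α → ℕ) : Prop := ∃ c, ∀ a, 2 ^ s a ≤ c * (sz a + 1)

end LSA
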