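import Pool.Agent.H69A.Par

/-!
# H69A/FnB: basic functions belong to every class

Module `H69A/FnB`. The calculus is `Pool/Agent/H85P/Calc.lean`, `Arith.lean`: `Fn C f`, `Pr C p` with
`fun_prop`, and by name `Fn.iter`, `Fn.sum`, `Fn.count`, `Pr.ex`, `Pr.all`, `Fn.mu`, `Fn.pow`, `Fn.pow2`,
`Fn.congr`, `Pr.congr`.

* `Fn.prodmod`: `Fn.iter` with `F a i = (∏ j < i, f a j) % m a`, step `(r * f a i) % m a`
  (`Finset.prod_range_succ`, `Nat.mod_mul_mod`), bound `sz (F a i) ≤ Nat.size (m a)` and `Fn.bd hm`.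
* `Fn.dgt`: `dgt b Z j = Z / 2 ^ min (b * j) (Nat.size Z) % 2 ^ min b (Nat.size Z)` (`Nat.div_eq_of_lt`,
  `Nat.mod_eq_of_lt`, `Nat.lt_size_self`); `Fn.pow2` needs the bound `min _ (Nat.size Z) ≤ 1 * (sz _ + 1)`
  first for the projections of `ℕ × ℕ × ℕ`, then `Fn.comp`.
* `Fn.inv`: `Fn.mu`. `Pr.prime`: `Nat.prime_def` or `Nat.prime_def_lt`: `2 ≤ n ∧ ∀ m < n, m ∣ n → m = 1`,
  `m ∣ n ↔ n % m = 0`.
* `Sm`: `s a ≤ 2 ^ s a`; `Fn.pow2`. For the exponents `nn`, `bb * dd`, `s * dd`: `nn_le`, `sdd_le`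
  (for `s a = 0` treat the value separately: it is one constant).
-/

set_option autoImplicit false

namespace LSA

open LSC

variable {C : NClass} [Calc C] {α β : Type} [Ctx α] [Ctx β]

protected theorem Fn.prodmod {n : α → ℕ} {f : α → ℕ → ℕ} {m : α → ℕ} (hn : Fn C n)
    (hf : Fn C (fun p : α × ℕ => f p.1 p.2)) (hm : Fn C m) (h : ∀ a, 0 < m a) :
    Fn C (fun a => (∏ i ∈ Finset.range (n a), f a i) % m a) := by
  obtain ⟨c, hc⟩ := hm.bd
  refine Fn.iter (F := fun a j => (∏ i ∈ Finset.range j, f a i) % m a) (g := fun a => 1 % m a)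
    (h := fun q => (q.2.2 * f q.1 q.2.1) % m q.1) hn (by fun_prop) ?_ (fun a => by simp)
    (fun a i _ => ?_) ⟨c, fun a i _ => ?_⟩
  · have h1 : Fn C (fun q : α × ℕ × ℕ => (fun p : α × ℕ => f p.1 p.2) (q.1, q.2.1)) := by fun_prop
    have h2 : Fn C (fun q : α × ℕ × ℕ => m q.1) := by fun_prop
    fun_prop
  · show (∏ i ∈ Finset.range (i + 1), f a i) % m a =
      ((∏ i ∈ Finset.range i, f a i) % m a * f a i) % m a
    rw [Finset.prod_range_succ, Nat.mod_mul_mod]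
  · rw [sz_nat]
    have h1 := hc a
    rw [sz_nat] at h1
    exact (size_mono (Nat.mod_lt _ (h a)).le).trans h1

theorem dgt_eq_min (b Z j : ℕ) :
    dgt b Z j = Z / 2 ^ min (b * j) (Nat.size Z) % 2 ^ min b (Nat.size Z) := by
  unfold dgt
  have hZ := Nat.lt_size_self Z
  rcases le_total (b * j) (Nat.size Z) with h1 | h1
  · rw [min_eq_left h1]
    rcases le_total b (Nat.size Z) with h2 | h2
    · rw [min_eq_left h2]
    · rw [min_eq_right h2]
      have h3 : Z / 2 ^ (b * j) < 2 ^ Nat.size Z := lt_of_le_of_lt (Nat.div_le_self _ _) hZ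
      rw [Nat.mod_eq_of_lt h3, Nat.mod_eq_of_lt (h3.trans_le (Nat.pow_le_pow_right (by norm_num) h2))]
  · rw [min_eq_right h1]
    have h3 : Z / 2 ^ (b * j) = 0 :=
      Nat.div_eq_of_lt (hZ.trans_le (Nat.pow_le_pow_right (by norm_num) h1))
    rw [h3, Nat.div_eq_of_lt hZ, Nat.zero_mod, Nat.zero_mod]

theorem fn_dgt : Fn C (fun p : ℕ × ℕ × ℕ => dgt p.1 p.2.1 p.2.2) := by
  have h1 : Fn C (fun p : ℕ × ℕ × ℕ => 2 ^ min (p.1 * p.2.2) (Nat.size p.2.1)) := by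
    refine Fn.pow2 (by fun_prop) 1 fun p => ?_
    obtain ⟨b, Z, j⟩ := p
    simp only [sz_prod, sz_nat]
    have := min_le_right (b * j) (Nat.size Z)
    omega
  have h2 : Fn C (fun p : ℕ × ℕ × ℕ => 2 ^ min p.1 (Nat.size p.2.1)) := by
    refine Fn.pow2 (by fun_prop) 1 fun p => ?_
    obtain ⟨b, Z, j⟩ := p
    simp only [sz_prod, sz_nat]
    have := min_le_right b (Nat.size Z)
    omega
  have h3 : Fn C (fun p : ℕ × ℕ × ℕ => p.2.1 / 2 ^ min (p.1 * p.2.2) (Nat.size p.2.1) %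
      2 ^ min p.1 (Nat.size p.2.1)) := by
    fun_prop
  exact h3.congr fun p => dgt_eq_min _ _ _

@[fun_prop] protected theorem Fn.dgt {b Z j : α → ℕ} (hb : Fn C b) (hZ : Fn C Z) (hj : Fn C j) :
    Fn C (fun a => dgt (b a) (Z a) (j a)) :=
  fn_dgt.comp (hb.pair (hZ.pair hj))

@[fun_prop] protected theorem Fn.inv {p v : α → ℕ} (hp : Fn C p) (hv : Fn C v) :
    Fn C (fun a => inv (p a) (v a)) := by
  have h1 : Fn C (fun a => mu (p a) fun u => v a * u % p a = 1 % p a) := by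
    refine Fn.mu (by fun_prop) ?_
    have h2 : Fn C (fun q : α × ℕ => v q.1) := by fun_prop
    have h3 : Fn C (fun q : α × ℕ => p q.1) := by fun_prop
    fun_prop
  exact h1

@[fun_prop] protected theorem Pr.prime {n : α → ℕ} (hn : Fn C n) :
    Pr C (fun a => (n a).Prime) := by
  have h : Pr C (fun k : ℕ => k.Prime) := by
    have h1 : Pr C (fun k : ℕ => 2 ≤ k ∧ ∀ m < k, k % m = 0 → m = 1) := by
      have h2 : Pr C (fun k : ℕ => ∀ m < k, k % m = 0 → m = 1) := by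
        refine Pr.all (p := fun k m => k % m = 0 → m = 1) (by fun_prop) ?_
        fun_prop
      fun_prop
    refine h1.congr fun k => ?_
    rw [Nat.prime_def_lt]
    simp only [Nat.dvd_iff_mod_eq_zero]
  exact h.comp hn

theorem Sm.comp {s : β → ℕ} (hs : Sm s) {g : α → β} (hg : Fn C g) : Sm (fun a => s (g a)) := by
  obtain ⟨c, hc⟩ := hs
  obtain ⟨c', hc'⟩ := hg.bd
  exact ⟨c * (c' + 1), fun a => lin_trans (hc (g a)) (hc' a)⟩

theorem Sm.lin {s : α → ℕ} (hs : Sm s) {f : ℕ → ℕ} (hf : ∃ c, ∀ n, 1 ≤ n → f n ≤ c * 2 ^ n) :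
    ∃ c, ∀ a, f (s a) ≤ c * (sz a + 1) := by
  obtain ⟨c, hc⟩ := hs
  obtain ⟨c', hc'⟩ := hf
  refine ⟨c' * c + f 0, fun a => ?_⟩
  rcases Nat.eq_zero_or_pos (s a) with h0 | h0
  · rw [h0]
    calc f 0 ≤ (c' * c + f 0) * 1 := by omega
      _ ≤ (c' * c + f 0) * (sz a + 1) := Nat.mul_le_mul_left _ (by omega)
  · calc f (s a) ≤ c' * 2 ^ s a := hc' _ h0
      _ ≤ c' * (c * (sz a + 1)) := Nat.mul_le_mul_left _ (hc a)
      _ ≤ (c' * c + f 0) * (sz a + 1) := by nlinarith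

protected theorem Fn.two_pow {s : α → ℕ} (hs : Fn C s) (h : Sm s) : Fn C (fun a => 2 ^ s a) := by
  obtain ⟨c, hc⟩ := h
  exact Fn.pow2 hs c fun a => (Nat.lt_two_pow_self).le.trans (hc a)

protected theorem Fn.dd (e : ℕ) {s : α → ℕ} (hs : Fn C s) (h : Sm s) : Fn C (fun a => dd e (s a)) := by
  have h2 := Fn.two_pow hs h
  have h3 : Fn C (fun a => e * 2 ^ s a / s a + 1) := by fun_prop
  exact h3

protected theorem Fn.mm (e : ℕ) {s : α → ℕ} (hs : Fn C s) (h : Sm s) : Fn C (fun a => mm e (s a)) := by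
  have h2 := Fn.two_pow hs h
  have h4 := Fn.dd e hs h
  have h3 : Fn C (fun a => dd e (s a) * 2 ^ s a + 1) := by fun_prop
  exact h3

protected theorem Fn.pp (e : ℕ) {s : α → ℕ} (hs : Fn C s) (h : Sm s) : Fn C (fun a => pp e (s a)) := by
  have h2 := Fn.two_pow hs h
  have h3 : Fn C (fun a => 2 ^ (3 * s a + e)) := by
    have : Fn C (fun a => 2 ^ s a * 2 ^ s a * 2 ^ s a * 2 ^ e) := by fun_prop
    exact this.congr fun a => by ring
  have h4 : Fn C (fun a => 2 ^ (3 * s a + e + 1)) := by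
    have : Fn C (fun a => 2 ^ (3 * s a + e) * 2) := by fun_prop
    exact this.congr fun a => by ring
  have h5 : Fn C (fun a => mu (2 ^ (3 * s a + e + 1) + 1)
      fun i => 2 ^ (3 * s a + e) ≤ i ∧ i.Prime) := by
    refine Fn.mu (by fun_prop) ?_
    have h6 : Fn C (fun q : α × ℕ => 2 ^ (3 * s q.1 + e)) :=
      h3.comp (f := fun q : α × ℕ => q.1) (by fun_prop)
    fun_prop
  exact h5

protected theorem Fn.bb (e : ℕ) {s : α → ℕ} (hs : Fn C s) : Fn C (fun a => bb e (s a)) := by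
  have h3 : Fn C (fun a => 2 ^ (e + 2) * (s a + e)) := by fun_prop
  exact h3

protected theorem Fn.ww (e : ℕ) {s : α → ℕ} (hs : Fn C s) : Fn C (fun a => ww e (s a)) := by
  have h3 : Fn C (fun a => s a + e) := by fun_prop
  exact h3

protected theorem Fn.nn (e : ℕ) {s : α → ℕ} (hs : Fn C s) (h : Sm s) : Fn C (fun a => nn e (s a)) := by
  have h1 := Fn.ww e hs
  have h2 := Fn.bb e hs
  have h4 := Fn.dd e hs h
  have h3 : Fn C (fun a => ww e (s a) + bb e (s a) * dd e (s a)) := by fun_prop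
  exact h3

protected theorem Fn.pow_ww (e : ℕ) {s : α → ℕ} (hs : Fn C s) (h : Sm s) :
    Fn C (fun a => 2 ^ ww e (s a)) := by
  have h2 := Fn.two_pow hs h
  have h3 : Fn C (fun a => 2 ^ s a * 2 ^ e) := by fun_prop
  exact h3.congr fun a => pow_add _ _ _

protected theorem Fn.pow_nn (e : ℕ) {s : α → ℕ} (hs : Fn C s) (h : Sm s) :
    Fn C (fun a => 2 ^ nn e (s a)) := by
  obtain ⟨c, hc⟩ := h.lin (nn_le e)
  exact Fn.pow2 (Fn.nn e hs h) c hc

protected theorem Fn.pow_bd (e : ℕ) {s : α → ℕ} (hs : Fn C s) (h : Sm s) :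
    Fn C (fun a => 2 ^ (bb e (s a) * dd e (s a))) := by
  obtain ⟨c, hc⟩ := h.lin (nn_le e)
  have h1 := Fn.bb e hs
  have h2 := Fn.dd e hs h
  refine Fn.pow2 (by fun_prop) c fun a => ?_
  refine le_trans ?_ (hc a)
  unfold nn
  omega

protected theorem Fn.pow_sd (e : ℕ) {s : α → ℕ} (hs : Fn C s) (h : Sm s) :
    Fn C (fun a => 2 ^ (s a * dd e (s a))) := by
  obtain ⟨c', hc'⟩ := sdd_le e
  obtain ⟨c, hc⟩ := h.lin (f := fun n => n * dd e n) ⟨c', fun n _ => hc' n⟩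
  have h2 := Fn.dd e hs h
  exact Fn.pow2 (by fun_prop) c hc

protected theorem Fn.pow_pow {s : α → ℕ} (hs : Fn C s) (h : Sm s) :
    Fn C (fun a => 2 ^ 2 ^ s a) := by
  have h2 := Fn.two_pow hs h
  obtain ⟨c, hc⟩ := h
  exact Fn.pow2 h2 c hc

end LSA
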