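import Pool.Agent.H69A.Defs

/-!
# H69A/Inv: inverses and the interpolation polynomials modulo `p`

Module `H69A/Inv`. `inv p v` is the least `u < p` with `v * u % p = 1 % p` (or `p`); use `LSC.mu_spec`,
`LSC.mu_eq`. In `ZMod p` (a field, `Fact p.Prime`) it is the inverse of `v`, if `p` does not divide `v`:
such a `u` exists (`((v : ZMod p)⁻¹).val`), then `mu_spec` and `ZMod.natCast_eq_natCast_iff'`.
In `cast_del`, for `v, y < 2 ^ s ≤ p`, `v ≠ y`: `((p - v : ℕ) : ZMod p) = - v` and `p` does not divide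
`y + (p - v)`, and the factor `v = y` is `1`, so the product is over `(range (2 ^ s)).erase y`
(`Finset.prod_erase`).
-/

set_option autoImplicit false

namespace LSA

open LSC

theorem inv_spec {p : ℕ} (hp : p.Prime) {v : ℕ} (hv : ¬ p ∣ v) :
    inv p v < p ∧ v * inv p v % p = 1 := by
  have : Fact p.Prime := ⟨hp⟩
  have h1 : 1 % p = 1 := Nat.mod_eq_of_lt hp.one_lt
  have hv0 : ((v : ℕ) : ZMod p) ≠ 0 := by
    intro h
    exact hv ((ZMod.natCast_eq_zero_iff v p).1 h)
  set u := (((v : ℕ) : ZMod p)⁻¹).val with hu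
  have hup : u < p := ZMod.val_lt _
  have huP : v * u % p = 1 % p := by
    have h2 : ((v * u : ℕ) : ZMod p) = ((1 : ℕ) : ZMod p) := by
      push_cast
      rw [hu, ZMod.natCast_zmod_val, mul_inv_cancel₀ hv0]
    exact (ZMod.natCast_eq_natCast_iff' _ _ _).1 h2
  have hlt : inv p v < p := by
    unfold inv
    refine lt_of_le_of_lt ?_ hup
    by_contra hcon
    exact mu_min (not_le.1 hcon) huP
  refine ⟨hlt, ?_⟩
  have h3 : v * inv p v % p = 1 % p := mu_spec (n := p) (p := fun u => v * u % p = 1 % p) hlt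
  rw [h3, h1]

theorem cast_inv {p : ℕ} [Fact p.Prime] {v : ℕ} (hv : ¬ p ∣ v) :
    ((inv p v : ℕ) : ZMod p) = ((v : ℕ) : ZMod p)⁻¹ := by
  have hp : p.Prime := Fact.out
  obtain ⟨_, h2⟩ := inv_spec hp hv
  have h1 : 1 % p = 1 := Nat.mod_eq_of_lt hp.one_lt
  have h3 : ((v * inv p v : ℕ) : ZMod p) = ((1 : ℕ) : ZMod p) :=
    (ZMod.natCast_eq_natCast_iff' _ _ _).2 (by rw [h2, h1])
  push_cast at h3
  exact eq_inv_of_mul_eq_one_right h3

theorem cast_del {p : ℕ} [Fact p.Prime] {s y : ℕ} (hs : 2 ^ s ≤ p) (hy : y < 2 ^ s) (z : ℕ) :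
    ((del p s y z : ℕ) : ZMod p) = ∏ v ∈ (Finset.range (2 ^ s)).erase y,
      ((z : ZMod p) - (v : ℕ)) * (((y : ℕ) : ZMod p) - (v : ℕ))⁻¹ := by
  unfold del
  rw [ZMod.natCast_mod, Nat.cast_prod]
  have hcast : ∀ v : ℕ, v < p → ((p - v : ℕ) : ZMod p) = - (v : ZMod p) := by
    intro v hv
    rw [Nat.cast_sub hv.le, ZMod.natCast_self, zero_sub]
  rw [← Finset.mul_prod_erase _ _ (Finset.mem_range.2 hy), if_pos rfl, Nat.cast_one, one_mul]
  refine Finset.prod_congr rfl fun v hv => ?_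
  rw [Finset.mem_erase, Finset.mem_range] at hv
  rw [if_neg hv.1]
  have hvp : v < p := lt_of_lt_of_le hv.2 hs
  have hyp : y < p := lt_of_lt_of_le hy hs
  have hdvd : ¬ p ∣ y + (p - v) := by
    intro h
    rcases lt_or_gt_of_ne hv.1 with h1 | h1
    · have h2 : p ∣ y - v := by
        have h3 : y + (p - v) = (y - v) + p := by omega
        rw [h3] at h
        exact (Nat.dvd_add_left (dvd_refl p)).1 h
      have := Nat.le_of_dvd (by omega) h2
      omega
    · have := Nat.le_of_dvd (by omega) h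
      omega
  rw [Nat.cast_mul, cast_inv hdvd, Nat.cast_add, Nat.cast_add, hcast v hvp]
  ring_nf

theorem del_lt {p : ℕ} (hp : 0 < p) (s y z : ℕ) : del p s y z < p := Nat.mod_lt _ hp

end LSA
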