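import Pool.Agent.H69A.FnB
import Pool.Agent.H69A.Inv

/-!
# H69A/FnLde: the extension belongs to every class which contains the message

Module `H69A/FnLde`. `Fn.prodmod` and `Fn.sum` (`Fn.sum` needs no bound), `fun_prop` for the bodies.
In `Fn.lde` the sum over `y < 2 ^ (s * d)` (`Fn.pow_sd`) of `if f a y then (∏ j < d, del ...) % p else 0`;
`Fn.prodmod` for the product with the context `(a, y)`; `Sm.comp` for the projections.
-/

set_option autoImplicit false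

namespace LSA

open LSC

variable {C : NClass} [Calc C] {α : Type} [Ctx α]

protected theorem Fn.del {p s y z : α → ℕ} (hp : Fn C p) (hs : Fn C s) (hy : Fn C y) (hz : Fn C z)
    (h : Sm s) (h0 : ∀ a, 0 < p a) : Fn C (fun a => del (p a) (s a) (y a) (z a)) := by
  unfold del
  have h1 : Fn C (fun a => 2 ^ s a) := Fn.two_pow hs h
  refine Fn.prodmod (n := fun a => 2 ^ s a)
    (f := fun a v => if v = y a then 1 else (z a + (p a - v)) * inv (p a) (y a + (p a - v)))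
    (m := p) h1 ?_ hp h0
  have hp' : Fn C (fun q : α × ℕ => p q.1) := hp.comp Fn.fst
  have hy' : Fn C (fun q : α × ℕ => y q.1) := hy.comp Fn.fst
  have hz' : Fn C (fun q : α × ℕ => z q.1) := hz.comp Fn.fst
  have h2 : Fn C (fun q : α × ℕ => q.2) := Fn.snd
  exact LSC.Fn.ite (Pr.eq h2 hy') (Fn.const 1)
    ((hz'.add (hp'.sub h2)).mul (Fn.inv hp' (hy'.add (hp'.sub h2))))

protected theorem Fn.ld (e : ℕ) {s Z : α → ℕ} {f : α → ℕ → Prop} (hs : Fn C s) (h : Sm s)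
    (hf : Pr C (fun q : α × ℕ => f q.1 q.2)) (hZ : Fn C Z) :
    Fn C (fun a => ld e (s a) (f a) (Z a)) := by
  classical
  unfold ld lde
  refine LSC.Fn.mod ?_ (Fn.pp e hs h)
  refine LSC.Fn.sum (n := fun a => 2 ^ (s a * dd e (s a)))
    (f := fun a y => if f a y then (∏ j ∈ Finset.range (dd e (s a)),
      del (pp e (s a)) (s a) (dgt (s a) y j) (dgt (bb e (s a)) (Z a) j)) % pp e (s a) else 0)
    (Fn.pow_sd e hs h) ?_
  refine LSC.Fn.ite hf ?_ (LSC.Fn.const 0)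
  have hs1 : Fn C (fun q : α × ℕ => s q.1) := hs.comp LSC.Fn.fst
  have hZ1 : Fn C (fun q : α × ℕ => Z q.1) := hZ.comp LSC.Fn.fst
  have hS1 : Sm (fun q : α × ℕ => s q.1) := Sm.comp (C := C) h LSC.Fn.fst
  refine Fn.prodmod (α := α × ℕ) (n := fun q => dd e (s q.1))
    (f := fun q j => del (pp e (s q.1)) (s q.1) (dgt (s q.1) q.2 j)
      (dgt (bb e (s q.1)) (Z q.1) j))
    (m := fun q => pp e (s q.1)) (Fn.dd e hs1 hS1) ?_ (Fn.pp e hs1 hS1) (fun _ => pp_spec.1.pos)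
  have hs2 : Fn C (fun q : (α × ℕ) × ℕ => s q.1.1) := hs1.comp LSC.Fn.fst
  have hZ2 : Fn C (fun q : (α × ℕ) × ℕ => Z q.1.1) := hZ1.comp LSC.Fn.fst
  have hS2 : Sm (fun q : (α × ℕ) × ℕ => s q.1.1) := Sm.comp (C := C) hS1 LSC.Fn.fst
  exact Fn.del (Fn.pp e hs2 hS2) hs2
    (Fn.dgt hs2 (LSC.Fn.snd.comp LSC.Fn.fst) LSC.Fn.snd)
    (Fn.dgt (Fn.bb e hs2) hZ2 LSC.Fn.snd) hS2 (fun _ => pp_spec.1.pos)

end LSA
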