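import Pool.Agent.H69A.Num
import Pool.Agent.H69A.Inv

/-!
# H69A/Line: the extension is a polynomial of degree at most `d * 2 ^ s` on every line

Module `H69A/Line`.

* `line_poly`: take `g = ∑ y, if f y then ∏ j < d, ∏ v ∈ (range (2 ^ s)).erase (dgt s y j),
  (X * C (z j - x j) + C (x j - v)) * C ((dgt s y j - v)⁻¹) else 0`; every factor has degree at most `1`
  (`Polynomial.natDegree_mul_le`, `natDegree_prod_le`, `natDegree_sum_le_of_forall_le`), there are at most
  `d * 2 ^ s` factors.
* `ext_point`: for `y ≠ y₀`, both below `2 ^ (s * d)`, there is `j < d` with `dgt s y j ≠ dgt s y₀ j`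
  (`dgt_ext`), and then the factor `v = dgt s y₀ j` of the product over `v` is `0`
  (`dgt_lt`); for `y = y₀` all factors are `1`, as `dgt s y j ≠ v` in `ZMod p` for `v ≠ dgt s y j`, both
  below `2 ^ s ≤ p`.
* `cast_lde`: push the cast inside, `ZMod.natCast_mod`, `cast_del`.
* `diff_sum`: finite differences of order `m` of a polynomial of degree `< m` vanish; Mathlib:
  `Mathlib/Algebra/Group/ForwardDiff.lean` (`fwdDiff_iter_eq_sum_shift`, `fwdDiff_iter_pow_eq_zero_of_lt`,
  `fwdDiff_iter_sum_mul_pow_eq_zero`), or induction on `m`.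
-/

set_option autoImplicit false

namespace LSA

open Polynomial

open Classical in
/-- the extension, at the point `w` -/
noncomputable def ext (p s d : ℕ) (f : ℕ → Prop) (w : ℕ → ZMod p) : ZMod p :=
  ∑ y ∈ Finset.range (2 ^ (s * d)), if f y then
    ∏ j ∈ Finset.range d, ∏ v ∈ (Finset.range (2 ^ s)).erase (dgt s y j),
      (w j - (v : ℕ)) * (((dgt s y j : ℕ) : ZMod p) - (v : ℕ))⁻¹ else 0

theorem cast_lde {p : ℕ} [Fact p.Prime] {s : ℕ} (hs : 2 ^ s ≤ p) (d b : ℕ) (f : ℕ → Prop) (Z : ℕ) :
    ((lde p d s b f Z : ℕ) : ZMod p) = ext p s d f (fun j => ((dgt b Z j : ℕ) : ZMod p)) := by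
  classical
  unfold lde ext
  rw [ZMod.natCast_mod, Nat.cast_sum]
  apply Finset.sum_congr rfl
  intro y _
  by_cases hf : f y
  · rw [if_pos hf, if_pos hf, ZMod.natCast_mod, Nat.cast_prod]
    apply Finset.prod_congr rfl
    intro j _
    exact cast_del hs (dgt_lt s y j) _
  · rw [if_neg hf, if_neg hf, Nat.cast_zero]

theorem line_poly {p : ℕ} [Fact p.Prime] (s d : ℕ) (f : ℕ → Prop) (x z : ℕ → ZMod p) :
    ∃ g : (ZMod p)[X], g.natDegree ≤ d * 2 ^ s ∧
      ∀ t : ℕ, g.eval (t : ZMod p) = ext p s d f (fun j => x j + t * (z j - x j)) := by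
  classical
  refine ⟨∑ y ∈ Finset.range (2 ^ (s * d)), if f y then
    ∏ j ∈ Finset.range d, ∏ v ∈ (Finset.range (2 ^ s)).erase (dgt s y j),
      (X * C (z j - x j) + C (x j - (v : ℕ))) * C ((((dgt s y j : ℕ) : ZMod p) - (v : ℕ))⁻¹) else 0,
      ?_, ?_⟩
  · apply natDegree_sum_le_of_forall_le
    intro y _
    split_ifs
    · refine (natDegree_prod_le _ _).trans ?_
      calc ∑ j ∈ Finset.range d, (∏ v ∈ (Finset.range (2 ^ s)).erase (dgt s y j),
            (X * C (z j - x j) + C (x j - (v : ℕ))) *
              C ((((dgt s y j : ℕ) : ZMod p) - (v : ℕ))⁻¹)).natDegree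
          ≤ ∑ _j ∈ Finset.range d, 2 ^ s := by
            apply Finset.sum_le_sum
            intro j _
            refine (natDegree_prod_le _ _).trans ?_
            calc ∑ v ∈ (Finset.range (2 ^ s)).erase (dgt s y j),
                ((X * C (z j - x j) + C (x j - (v : ℕ))) *
                  C ((((dgt s y j : ℕ) : ZMod p) - (v : ℕ))⁻¹)).natDegree
                ≤ ∑ _v ∈ (Finset.range (2 ^ s)).erase (dgt s y j), 1 := by
                  apply Finset.sum_le_sum
                  intro v _
                  refine (natDegree_mul_C_le _ _).trans ?_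
                  refine (natDegree_add_le _ _).trans ?_
                  rw [natDegree_C]
                  refine max_le ?_ (by norm_num)
                  exact (natDegree_mul_C_le _ _).trans natDegree_X_le
              _ = ((Finset.range (2 ^ s)).erase (dgt s y j)).card := by simp
              _ ≤ (Finset.range (2 ^ s)).card := Finset.card_erase_le
              _ = 2 ^ s := Finset.card_range _
        _ = d * 2 ^ s := by rw [Finset.sum_const, Finset.card_range, smul_eq_mul]
    · simp
  · intro t
    unfold ext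
    rw [eval_finsetSum]
    apply Finset.sum_congr rfl
    intro y _
    by_cases hf : f y
    · rw [if_pos hf, if_pos hf, eval_prod]
      apply Finset.prod_congr rfl
      intro j _
      rw [eval_prod]
      apply Finset.prod_congr rfl
      intro v _
      rw [eval_mul, eval_C, eval_add, eval_mul, eval_X, eval_C, eval_C]
      ring
    · rw [if_neg hf, if_neg hf, eval_zero]

open Classical in
theorem ext_point {p : ℕ} [Fact p.Prime] {s : ℕ} (hs : 2 ^ s ≤ p) (d : ℕ) (f : ℕ → Prop) {y : ℕ}
    (hy : y < 2 ^ (s * d)) :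
    ext p s d f (fun j => ((dgt s y j : ℕ) : ZMod p)) = if f y then 1 else 0 := by
  unfold ext
  rw [Finset.sum_eq_single y]
  · by_cases hf : f y
    · rw [if_pos hf, if_pos hf]
      apply Finset.prod_eq_one
      intro j _
      apply Finset.prod_eq_one
      intro v hv
      rw [Finset.mem_erase, Finset.mem_range] at hv
      apply mul_inv_cancel₀
      intro h0
      rw [sub_eq_zero, ZMod.natCast_eq_natCast_iff'] at h0
      have h1 := dgt_lt s y j
      rw [Nat.mod_eq_of_lt (by omega), Nat.mod_eq_of_lt (by omega)] at h0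
      exact hv.1 h0.symm
    · rw [if_neg hf, if_neg hf]
  · intro y' hy' hne
    rw [Finset.mem_range] at hy'
    split_ifs
    · have hj : ∃ j, j < d ∧ dgt s y' j ≠ dgt s y j := by
        by_contra hcon
        push Not at hcon
        exact hne (dgt_ext hy' hy hcon)
      obtain ⟨j, hj, hdj⟩ := hj
      apply Finset.prod_eq_zero (Finset.mem_range.mpr hj)
      apply Finset.prod_eq_zero (i := dgt s y j)
      · rw [Finset.mem_erase, Finset.mem_range]
        exact ⟨hdj.symm, dgt_lt s y j⟩
      · rw [sub_self, zero_mul]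
    · rfl
  · intro h
    exact absurd (Finset.mem_range.mpr hy) h

theorem diff_sum {F : Type} [Field F] (g : F[X]) (m : ℕ) (h : g.natDegree < m) :
    ∑ t ∈ Finset.range (m + 1), (-1) ^ t * (m.choose t : F) * g.eval (t : F) = 0 := by
  have h1 := fwdDiff_iter_sum_mul_pow_eq_zero (R := F) (n := m) (fun k => g.coeff k)
  have h2 : (fun r : F => ∑ k ∈ Finset.range m, g.coeff k * r ^ k) = fun r => g.eval r := by
    funext r
    exact (eval_eq_sum_range' h r).symm
  rw [h2] at h1
  have h3 := fwdDiff_iter_eq_sum_shift (1 : F) (fun r : F => g.eval r) m 0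
  rw [h1] at h3
  have h4 : ∑ t ∈ Finset.range (m + 1), (-1) ^ t * (m.choose t : F) * g.eval (t : F) =
      (-1) ^ m * ∑ k ∈ Finset.range (m + 1),
        ((-1 : ℤ) ^ (m - k) * (m.choose k : ℤ)) • g.eval ((0 : F) + k • (1 : F)) := by
    rw [Finset.mul_sum]
    apply Finset.sum_congr rfl
    intro t ht
    rw [Finset.mem_range] at ht
    rw [zero_add, nsmul_eq_mul, mul_one, zsmul_eq_mul]
    push_cast
    have e : ((-1 : F)) ^ m * (-1) ^ (m - t) = (-1) ^ t := by
      rw [← pow_add]
      have : m + (m - t) = 2 * (m - t) + t := by omega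
      rw [this, pow_add, pow_mul]
      norm_num
    rw [← e]
    ring
  rw [h4, ← h3]
  simp

end LSA
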