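import Pool.Agent.H69A.FnB
import Pool.Agent.H85P.Graph

/-!
# H69A/LocR: reachability is locally checkable

Module `H69A/LocR`. `LSC.Reach E N d u v` is defined in `Pool/Agent/H85P/Graph.lean` by recursion on `d`
(`0`: `u = v`; `d + 1`: `∃ w < N, Reach E N d u w ∧ (w = v ∨ E w v)`). With `k = c * (Nat.size a + 1)`,
`N a = 2 ^ k`, the triple `(u, v, d)`, `u, v < N a`, `d ≤ N a`, is the number `t = u + 2 ^ k * (v + 2 ^ k * d)
< 2 ^ (3 * k + 1) ≤ 2 ^ ((3 * c + 1) * (Nat.size a + 1))`. The table is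
`F (a, t) = Reach (E a) (N a) (t / N a / N a) (t % N a) (t / N a % N a)` (`hR`, `hN`, `hND` for the class `D`).
For a table `G`: `g u v d := G (w, a, u + N a * (v + N a * d))`,
`ok (w, a) := (∀ u < N a, ∀ v < N a, (g u v 0 ↔ u = v)) ∧
  ∀ d < N a, ∀ u < N a, ∀ v < N a, (g u v (d + 1) ↔ ∃ x < N a, g u x d ∧ (x = v ∨ E a x v))`,
`out (w, a) := ∃ v < N a, A a v ∧ g (u0 a) v (N a)`. If `ok` then `g u v d ↔ Reach (E a) (N a) d u v` for
`u, v < N a`, `d ≤ N a`, by induction on `d`. Definability: `Pr.all`, `Pr.ex` (nested; contexts are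
products, the body of a bounded quantifier is a predicate on `α × ℕ`), `Pr.comp`, `fun_prop`.
-/

set_option autoImplicit false

namespace LSA

open LSC

theorem loc_reach {C D : NClass} [Calc C] [Calc D] {f : ℕ → Prop} {E : ℕ → ℕ → ℕ → Prop}
    {N u0 : ℕ → ℕ} {A : ℕ → ℕ → Prop} {c : ℕ}
    (hE : Pr C (fun p : ℕ × ℕ × ℕ => E p.1 p.2.1 p.2.2)) (hN : Fn C N) (hND : Fn D N) (hu : Fn C u0)
    (hA : Pr C (fun p : ℕ × ℕ => A p.1 p.2)) (hNc : ∀ a, N a = 2 ^ (c * (sz a + 1)))
    (hu0 : ∀ a, u0 a < N a)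
    (hf : ∀ a, f a ↔ ∃ v < N a, A a v ∧ Reach (E a) (N a) (N a) (u0 a) v)
    (hR : Pr D (fun p : ℕ × ℕ × ℕ × ℕ => Reach (E p.1) (N p.1) p.2.1 p.2.2.1 p.2.2.2)) :
    Loc C D f := by
  refine ⟨fun p => Reach (E p.1) (N p.1) (p.2 / N p.1 / N p.1) (p.2 % N p.1) (p.2 / N p.1 % N p.1),
    3 * c + 1, ?_, ?_⟩
  · have h1 : Fn D (fun p : ℕ × ℕ => N p.1) := hND.comp (by fun_prop)
    exact hR.comp (f := fun p : ℕ × ℕ =>
      (p.1, p.2 / N p.1 / N p.1, p.2 % N p.1, p.2 / N p.1 % N p.1)) (by fun_prop)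
  · intro G hG
    have hN0 : ∀ a, 0 < N a := fun a => by rw [hNc]; positivity
    refine ⟨fun p => (∀ u < N p.2, ∀ v < N p.2, (G (p.1, p.2, u + N p.2 * (v + N p.2 * 0)) ↔ u = v)) ∧
      ∀ d < N p.2, ∀ u < N p.2, ∀ v < N p.2, (G (p.1, p.2, u + N p.2 * (v + N p.2 * (d + 1))) ↔
        ∃ x < N p.2, G (p.1, p.2, u + N p.2 * (x + N p.2 * d)) ∧ (x = v ∨ E p.2 x v)),
      fun p => ∃ v < N p.2, A p.2 v ∧ G (p.1, p.2, u0 p.2 + N p.2 * (v + N p.2 * N p.2)),
      ?_, ?_, ?_, ?_⟩
    · refine Pr.and ?_ ?_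
      · refine Pr.all (hN.comp (by fun_prop)) ?_
        refine Pr.all (hN.comp (by fun_prop)) ?_
        refine Pr.iff ?_ (by fun_prop)
        have h2 : Fn C (fun q : ((ℕ × ℕ) × ℕ) × ℕ => N q.1.1.2) := hN.comp (by fun_prop)
        exact hG.comp (f := fun q : ((ℕ × ℕ) × ℕ) × ℕ =>
          (q.1.1.1, q.1.1.2, q.1.2 + N q.1.1.2 * (q.2 + N q.1.1.2 * 0))) (by fun_prop)
      · refine Pr.all (hN.comp (by fun_prop)) ?_
        refine Pr.all (hN.comp (by fun_prop)) ?_
        refine Pr.all (hN.comp (by fun_prop)) ?_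
        refine Pr.iff ?_ ?_
        · have h2 : Fn C (fun q : (((ℕ × ℕ) × ℕ) × ℕ) × ℕ => N q.1.1.1.2) := hN.comp (by fun_prop)
          exact hG.comp (f := fun q : (((ℕ × ℕ) × ℕ) × ℕ) × ℕ =>
            (q.1.1.1.1, q.1.1.1.2, q.1.2 + N q.1.1.1.2 * (q.2 + N q.1.1.1.2 * (q.1.1.2 + 1))))
            (by fun_prop)
        · refine Pr.ex (hN.comp (by fun_prop)) ?_
          refine Pr.and ?_ (Pr.or (by fun_prop) ?_)
          · have h2 : Fn C (fun q : ((((ℕ × ℕ) × ℕ) × ℕ) × ℕ) × ℕ => N q.1.1.1.1.2) :=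
              hN.comp (by fun_prop)
            exact hG.comp (f := fun q : ((((ℕ × ℕ) × ℕ) × ℕ) × ℕ) × ℕ =>
              (q.1.1.1.1.1, q.1.1.1.1.2,
                q.1.1.2 + N q.1.1.1.1.2 * (q.2 + N q.1.1.1.1.2 * q.1.1.1.2))) (by fun_prop)
          · exact hE.comp (f := fun q : ((((ℕ × ℕ) × ℕ) × ℕ) × ℕ) × ℕ =>
              (q.1.1.1.1.2, q.2, q.1.2)) (by fun_prop)
    · refine Pr.ex (hN.comp (by fun_prop)) (Pr.and ?_ ?_)
      · exact hA.comp (f := fun q : (ℕ × ℕ) × ℕ => (q.1.2, q.2)) (by fun_prop)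
      · have h2 : Fn C (fun q : (ℕ × ℕ) × ℕ => N q.1.2) := hN.comp (by fun_prop)
        have h3 : Fn C (fun q : (ℕ × ℕ) × ℕ => u0 q.1.2) := hu.comp (by fun_prop)
        exact hG.comp (f := fun q : (ℕ × ℕ) × ℕ =>
          (q.1.1, q.1.2, u0 q.1.2 + N q.1.2 * (q.2 + N q.1.2 * N q.1.2))) (by fun_prop)
    · rintro w a ⟨h1, h2⟩
      have key : ∀ d ≤ N a, ∀ u < N a, ∀ v < N a,
          (G (w, a, u + N a * (v + N a * d)) ↔ Reach (E a) (N a) d u v) := by
        intro d
        induction d with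
        | zero => exact fun _ u hu v hv => h1 u hu v hv
        | succ d ih =>
          intro hd u hu v hv
          refine (h2 d (by exact hd) u hu v hv).trans ?_
          constructor
          · rintro ⟨x, hx, hg, hor⟩
            exact ⟨x, hx, (ih (by omega) u hu x hx).mp hg, hor⟩
          · rintro ⟨x, hx, hg, hor⟩
            exact ⟨x, hx, (ih (by omega) u hu x hx).mpr hg, hor⟩
      rw [hf a]
      constructor
      · rintro ⟨v, hv, hav, hg⟩
        exact ⟨v, hv, hav, (key _ le_rfl _ (hu0 a) v hv).mp hg⟩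
      · rintro ⟨v, hv, hav, hg⟩
        exact ⟨v, hv, hav, (key _ le_rfl _ (hu0 a) v hv).mpr hg⟩
    · intro w a h
      have hget : ∀ d ≤ N a, ∀ u < N a, ∀ v < N a,
          (G (w, a, u + N a * (v + N a * d)) ↔ Reach (E a) (N a) d u v) := by
        intro d hd u hu v hv
        have h0 := hN0 a
        have hlt : u + N a * (v + N a * d) < 2 ^ ((3 * c + 1) * (Nat.size a + 1)) := by
          have e1 : N a = 2 ^ (c * (Nat.size a + 1)) := by rw [hNc a, sz_nat]
          have e2 : 2 ^ ((3 * c + 1) * (Nat.size a + 1)) =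
              N a * (N a * N a) * 2 ^ (Nat.size a + 1) := by
            rw [e1, ← pow_add, ← pow_add, ← pow_add]
            congr 1
            ring
          have e3 : 2 ≤ 2 ^ (Nat.size a + 1) := by
            rw [pow_succ]
            have : 0 < 2 ^ Nat.size a := by positivity
            omega
          have e4 : u + N a * (v + N a * d) < N a * (N a * (N a + 1)) := by
            have e5 : v + N a * d + 1 ≤ N a * (N a + 1) := by
              have : N a * d ≤ N a * N a := Nat.mul_le_mul_left _ hd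
              have e6 : N a * (N a + 1) = N a * N a + N a := by ring
              omega
            have e7 := Nat.mul_le_mul_left (N a) e5
            have e8 : N a * (v + N a * d + 1) = N a * (v + N a * d) + N a := by ring
            omega
          refine lt_of_lt_of_le e4 ?_
          rw [e2]
          have e9 : N a * (N a + 1) ≤ N a * N a * 2 := by nlinarith
          calc N a * (N a * (N a + 1)) ≤ N a * (N a * N a * 2) := Nat.mul_le_mul_left _ e9
            _ = N a * (N a * N a) * 2 := by ring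
            _ ≤ _ := Nat.mul_le_mul_left _ e3
        refine (h _ hlt).trans ?_
        have f1 : (u + N a * (v + N a * d)) % N a = u := by
          rw [Nat.add_mul_mod_self_left, Nat.mod_eq_of_lt hu]
        have f2 : (u + N a * (v + N a * d)) / N a = v + N a * d := by
          rw [Nat.add_mul_div_left _ _ h0, Nat.div_eq_of_lt hu, zero_add]
        have f3 : (v + N a * d) % N a = v := by
          rw [Nat.add_mul_mod_self_left, Nat.mod_eq_of_lt hv]
        have f4 : (v + N a * d) / N a = d := by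
          rw [Nat.add_mul_div_left _ _ h0, Nat.div_eq_of_lt hv, zero_add]
        show Reach (E a) (N a) ((u + N a * (v + N a * d)) / N a / N a)
          ((u + N a * (v + N a * d)) % N a) ((u + N a * (v + N a * d)) / N a % N a) ↔ _
        rw [f1, f2, f3, f4]
      refine ⟨fun u hu v hv => hget 0 (Nat.zero_le _) u hu v hv, fun d hd u hu v hv => ?_⟩
      refine (hget (d + 1) hd u hu v hv).trans ?_
      constructor
      · rintro ⟨x, hx, hg, hor⟩
        exact ⟨x, hx, (hget d (le_of_lt hd) u hu x hx).mpr hg, hor⟩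
      · rintro ⟨x, hx, hg, hor⟩
        exact ⟨x, hx, (hget d (le_of_lt hd) u hu x hx).mp hg, hor⟩

end LSA
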