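import Pool.Agent.H69A.FnB

/-!
# H69A/LocT: recursion with access to the earlier values is locally checkable

Module `H69A/LocT`. `R a t` is defined by recursion on `t` with access to earlier values; the values for
`t ≤ T a = 2 ^ (c * (Nat.size a + 1))` have at most `l a = c * (Nat.size a + 1)` digits. The table is
`F (a, x)`, `x = i + 2 ^ k * t` with `k = c * (Nat.size a + 1)`, `i < 2 ^ k`
(note `l a ≤ 2 ^ k`), `t ≤ 2 ^ k`, so `x < 2 ^ (2 * k + 1)`: `F (a, x) = (the bit number x % 2 ^ k of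
R a (x / 2 ^ k) is 1 and x % 2 ^ k < k)`; in the definition use
`R a (x / 2 ^ k) / 2 ^ min (x % 2 ^ k) k % 2 = 1 ∧ x % 2 ^ k < k`.
For a table `G`: `r w a t := ∑ i ∈ range k, if G (w, a, i + 2 ^ k * t) then 2 ^ i else 0` (in the body
`2 ^ min i k`; `Fn.sum`), `ok (w, a) := r w a 0 = g a ∧ ∀ t < T a, r w a (t + 1) =
H (a, t, r w a t, fun j => r w a (min (Q j (a, t, r w a t)) t))`, `out (w, a) := o (a, r w a (T a))`.
If `ok`, then `r w a t = R a t` for all `t ≤ T a` (strong induction). If `G` is the table `F` then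
`r w a t = R a t` for `t ≤ T a` because `R a t < 2 ^ k` is the sum of its bits, and so `ok` holds.
Definability of `r` in the class `C`: `Fn.sum`, `Pr.comp`; of the tuple `fun j => ...`: `Fn.pi`,
and of `Q j` for fixed `j`: `hQ j`.
-/

set_option autoImplicit false

namespace LSA

open LSC

private theorem bits_sum (v k : ℕ) :
    ∑ i ∈ Finset.range k, (if v / 2 ^ i % 2 = 1 then 2 ^ i else 0) = v % 2 ^ k := by
  induction k with
  | zero => simp [Nat.mod_one]
  | succ k ih =>
    rw [Finset.sum_range_succ, ih, Nat.mod_pow_succ]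
    rcases Nat.mod_two_eq_zero_or_one (v / 2 ^ k) with h | h <;> simp [h]

private theorem bits_eq {v k : ℕ} (h : v < 2 ^ k) :
    ∑ i ∈ Finset.range k, (if v / 2 ^ i % 2 = 1 then 2 ^ i else 0) = v := by
  rw [bits_sum, Nat.mod_eq_of_lt h]

open Classical in
/-- the number read from the table -/
private noncomputable def rr (c : ℕ) (G : ℕ × ℕ × ℕ → Prop) (p : ℕ × ℕ × ℕ) : ℕ :=
  ∑ i ∈ Finset.range (c * (Nat.size p.2.1 + 1)),
    if G (p.1, p.2.1, i + 2 ^ (c * (Nat.size p.2.1 + 1)) * p.2.2) then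
      2 ^ min i (c * (Nat.size p.2.1 + 1)) else 0

private theorem fn_rr {C : NClass} [Calc C] {c : ℕ} {G : ℕ × ℕ × ℕ → Prop} (hG : Pr C G) :
    Fn C (rr c G) := by
  classical
  unfold rr
  refine Fn.sum (by fun_prop) (Fn.ite ?_ ?_ (by fun_prop))
  · have h1 : Fn C (fun q : (ℕ × ℕ × ℕ) × ℕ => 2 ^ (c * (Nat.size q.1.2.1 + 1))) :=
      Fn.pow2 (by fun_prop) c fun q => by
        obtain ⟨⟨w, a, t⟩, i⟩ := q
        simp only [sz_prod, sz_nat]
        exact Nat.mul_le_mul_left c (by omega)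
    exact hG.comp (f := fun q : (ℕ × ℕ × ℕ) × ℕ =>
      (q.1.1, q.1.2.1, q.2 + 2 ^ (c * (Nat.size q.1.2.1 + 1)) * q.1.2.2)) (by fun_prop)
  · exact Fn.pow2 (by fun_prop) c fun q => by
      obtain ⟨⟨w, a, t⟩, i⟩ := q
      simp only [sz_prod, sz_nat]
      exact (min_le_right _ _).trans (Nat.mul_le_mul_left c (by omega))

theorem loc_hist {C D : NClass} [Calc C] [Calc D] {f : ℕ → Prop} {r : ℕ} {g : ℕ → ℕ}
    {Q : Fin r → ℕ × ℕ × ℕ → ℕ} {H : ℕ × ℕ × ℕ × (Fin r → ℕ) → ℕ} {o : ℕ × ℕ → Prop}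
    {R : ℕ → ℕ → ℕ} {c : ℕ} (hg : Fn C g) (hQ : ∀ j, Fn C (Q j)) (hH : Fn C H) (ho : Pr C o)
    (h0 : ∀ a, R a 0 = g a)
    (hs : ∀ a t, R a (t + 1) = H (a, t, R a t, fun j => R a (min (Q j (a, t, R a t)) t)))
    (hsz : ∀ a t, t ≤ 2 ^ (c * (Nat.size a + 1)) → R a t < 2 ^ (c * (Nat.size a + 1)))
    (hf : ∀ a, f a ↔ o (a, R a (2 ^ (c * (Nat.size a + 1)))))
    (hD : Fn D (fun p : ℕ × ℕ => R p.1 p.2)) : Loc C D f := by
  refine ⟨fun p => R p.1 (p.2 / 2 ^ (c * (Nat.size p.1 + 1))) /
      2 ^ min (p.2 % 2 ^ (c * (Nat.size p.1 + 1))) (c * (Nat.size p.1 + 1)) % 2 = 1 ∧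
      p.2 % 2 ^ (c * (Nat.size p.1 + 1)) < c * (Nat.size p.1 + 1), 2 * c + 1, ?_, ?_⟩
  · have h1 : Fn D (fun q : ℕ × ℕ => 2 ^ (c * (Nat.size q.1 + 1))) :=
      Fn.pow2 (by fun_prop) c fun q => by
        obtain ⟨a, t⟩ := q
        simp only [sz_prod, sz_nat]
        exact Nat.mul_le_mul_left c (by omega)
    have h2 : Fn D (fun q : ℕ × ℕ => 2 ^ min (q.2 % 2 ^ (c * (Nat.size q.1 + 1)))
        (c * (Nat.size q.1 + 1))) :=
      Fn.pow2 (by fun_prop) c fun q => by
        obtain ⟨a, t⟩ := q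
        simp only [sz_prod, sz_nat]
        exact (min_le_right _ _).trans (Nat.mul_le_mul_left c (by omega))
    have h3 : Fn D (fun q : ℕ × ℕ => R q.1 (q.2 / 2 ^ (c * (Nat.size q.1 + 1)))) :=
      hD.comp (f := fun q : ℕ × ℕ => (q.1, q.2 / 2 ^ (c * (Nat.size q.1 + 1)))) (by fun_prop)
    fun_prop
  · intro G hG
    have hr : Fn C (rr c G) := fn_rr hG
    refine ⟨fun p => rr c G (p.1, p.2, 0) = g p.2 ∧ ∀ t < 2 ^ (c * (Nat.size p.2 + 1)),
      rr c G (p.1, p.2, t + 1) = H (p.2, t, rr c G (p.1, p.2, t), fun j =>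
        rr c G (p.1, p.2, min (Q j (p.2, t, rr c G (p.1, p.2, t))) t)),
      fun p => o (p.2, rr c G (p.1, p.2, 2 ^ (c * (Nat.size p.2 + 1)))), ?_, ?_, ?_, ?_⟩
    · refine Pr.and (Pr.eq (hr.comp (by fun_prop)) (hg.comp (by fun_prop))) ?_
      refine Pr.all ?_ (Pr.eq (hr.comp (by fun_prop)) ?_)
      · exact Fn.pow2 (by fun_prop) c fun q => by
          obtain ⟨w, a⟩ := q
          simp only [sz_prod, sz_nat]
          exact Nat.mul_le_mul_left c (by omega)
      · have h1 : Fn C (fun q : (ℕ × ℕ) × ℕ => rr c G (q.1.1, q.1.2, q.2)) :=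
          hr.comp (by fun_prop)
        have h2 : Fn C (fun q : (ℕ × ℕ) × ℕ => fun j : Fin r =>
            rr c G (q.1.1, q.1.2, min (Q j (q.1.2, q.2, rr c G (q.1.1, q.1.2, q.2))) q.2)) := by
          refine Fn.pi fun j => ?_
          have h3 : Fn C (fun q : (ℕ × ℕ) × ℕ => Q j (q.1.2, q.2, rr c G (q.1.1, q.1.2, q.2))) :=
            (hQ j).comp (by fun_prop)
          exact hr.comp (f := fun q : (ℕ × ℕ) × ℕ =>
            (q.1.1, q.1.2, min (Q j (q.1.2, q.2, rr c G (q.1.1, q.1.2, q.2))) q.2)) (by fun_prop)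
        exact hH.comp (f := fun q : (ℕ × ℕ) × ℕ => (q.1.2, q.2, rr c G (q.1.1, q.1.2, q.2),
          fun j : Fin r => rr c G (q.1.1, q.1.2,
            min (Q j (q.1.2, q.2, rr c G (q.1.1, q.1.2, q.2))) q.2)))
          (Fn.pair (by fun_prop) (Fn.pair (by fun_prop) (Fn.pair h1 h2)))
    · have h1 : Fn C (fun q : ℕ × ℕ => 2 ^ (c * (Nat.size q.2 + 1))) :=
        Fn.pow2 (by fun_prop) c fun q => by
          obtain ⟨w, a⟩ := q
          simp only [sz_prod, sz_nat]
          exact Nat.mul_le_mul_left c (by omega)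
      have h2 : Fn C (fun q : ℕ × ℕ => rr c G (q.1, q.2, 2 ^ (c * (Nat.size q.2 + 1)))) :=
        hr.comp (by fun_prop)
      exact ho.comp (f := fun q : ℕ × ℕ =>
        (q.2, rr c G (q.1, q.2, 2 ^ (c * (Nat.size q.2 + 1))))) (by fun_prop)
    · rintro w a ⟨h1, h2⟩
      have key : ∀ t ≤ 2 ^ (c * (Nat.size a + 1)), rr c G (w, a, t) = R a t := by
        intro t
        induction t using Nat.strong_induction_on with
        | _ t ih =>
          intro ht
          rcases t with _ | t
          · rw [h0 a]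
            exact h1
          · have e1 := h2 t (by exact ht)
            have e2 : rr c G (w, a, t + 1) = H (a, t, rr c G (w, a, t), fun j =>
              rr c G (w, a, min (Q j (a, t, rr c G (w, a, t))) t)) := e1
            rw [e2, ih t (Nat.lt_succ_self t) (Nat.le_of_succ_le ht), hs a t]
            have e3 : (fun j : Fin r => rr c G (w, a, min (Q j (a, t, R a t)) t)) =
                fun j => R a (min (Q j (a, t, R a t)) t) := by
              funext j
              exact ih _ (Nat.lt_succ_of_le (min_le_right _ _))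
                ((min_le_right _ _).trans (Nat.le_of_succ_le ht))
            rw [e3]
      rw [hf a]
      show o (a, rr c G (w, a, 2 ^ (c * (Nat.size a + 1)))) ↔ _
      rw [key _ le_rfl]
    · intro w a h
      have key : ∀ t ≤ 2 ^ (c * (Nat.size a + 1)), rr c G (w, a, t) = R a t := by
        intro t ht
        refine Eq.trans ?_ (bits_eq (hsz a t ht))
        unfold rr
        refine Finset.sum_congr rfl fun i hi => ?_
        have hi : i < c * (Nat.size a + 1) := Finset.mem_range.mp hi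
        have hip : i < 2 ^ (c * (Nat.size a + 1)) := hi.trans Nat.lt_two_pow_self
        have hpos : 0 < 2 ^ (c * (Nat.size a + 1)) := by positivity
        have hlt : i + 2 ^ (c * (Nat.size a + 1)) * t <
            2 ^ ((2 * c + 1) * (Nat.size a + 1)) := by
          have e2 : 2 ^ ((2 * c + 1) * (Nat.size a + 1)) = 2 ^ (c * (Nat.size a + 1)) *
              2 ^ (c * (Nat.size a + 1)) * 2 ^ (Nat.size a + 1) := by
            rw [← pow_add, ← pow_add]
            congr 1
            ring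
          have e3 : 2 ≤ 2 ^ (Nat.size a + 1) := by
            rw [pow_succ]
            have : 0 < 2 ^ Nat.size a := by positivity
            omega
          have e4 : i + 2 ^ (c * (Nat.size a + 1)) * t <
              2 ^ (c * (Nat.size a + 1)) * (2 ^ (c * (Nat.size a + 1)) + 1) := by
            have e5 := Nat.mul_le_mul_left (2 ^ (c * (Nat.size a + 1))) ht
            have e6 : 2 ^ (c * (Nat.size a + 1)) * (2 ^ (c * (Nat.size a + 1)) + 1) =
              2 ^ (c * (Nat.size a + 1)) * 2 ^ (c * (Nat.size a + 1)) +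
                2 ^ (c * (Nat.size a + 1)) := by ring
            omega
          refine lt_of_lt_of_le e4 ?_
          rw [e2]
          generalize 2 ^ (c * (Nat.size a + 1)) = X at *
          have e9 : X * (X + 1) ≤ X * X * 2 := by nlinarith
          exact e9.trans (Nat.mul_le_mul_left _ e3)
        have hx := h _ hlt
        have f1 : (i + 2 ^ (c * (Nat.size a + 1)) * t) % 2 ^ (c * (Nat.size a + 1)) = i := by
          rw [Nat.add_mul_mod_self_left, Nat.mod_eq_of_lt hip]
        have f2 : (i + 2 ^ (c * (Nat.size a + 1)) * t) / 2 ^ (c * (Nat.size a + 1)) = t := by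
          rw [Nat.add_mul_div_left _ _ hpos, Nat.div_eq_of_lt hip, zero_add]
        have hx' : G (w, a, i + 2 ^ (c * (Nat.size a + 1)) * t) ↔ R a t / 2 ^ i % 2 = 1 := by
          refine hx.trans ?_
          show R a ((i + 2 ^ (c * (Nat.size a + 1)) * t) / 2 ^ (c * (Nat.size a + 1))) /
            2 ^ min ((i + 2 ^ (c * (Nat.size a + 1)) * t) % 2 ^ (c * (Nat.size a + 1)))
              (c * (Nat.size a + 1)) % 2 = 1 ∧
            (i + 2 ^ (c * (Nat.size a + 1)) * t) % 2 ^ (c * (Nat.size a + 1)) <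
              c * (Nat.size a + 1) ↔ _
          rw [f1, f2, min_eq_left hi.le]
          exact and_iff_left hi
        classical
        show (if G (w, a, i + 2 ^ (c * (Nat.size a + 1)) * t) then
          2 ^ min i (c * (Nat.size a + 1)) else 0) = _
        rw [min_eq_left hi.le]
        by_cases hb : R a t / 2 ^ i % 2 = 1
        · rw [if_pos hb, if_pos (hx'.mpr hb)]
        · rw [if_neg hb, if_neg (fun h' => hb (hx'.mp h'))]
      refine ⟨?_, fun t ht => ?_⟩
      · show rr c G (w, a, 0) = g a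
        rw [key 0 (Nat.zero_le _), h0 a]
      · show rr c G (w, a, t + 1) = H (a, t, rr c G (w, a, t), fun j =>
          rr c G (w, a, min (Q j (a, t, rr c G (w, a, t))) t))
        rw [key (t + 1) ht, key t (le_of_lt ht), hs a t]
        have e3 : (fun j : Fin r => rr c G (w, a, min (Q j (a, t, R a t)) t)) =
            fun j => R a (min (Q j (a, t, R a t)) t) := by
          funext j
          exact key _ ((min_le_right _ _).trans (le_of_lt ht))
        rw [e3]

end LSA
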