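import Pool.Agent.H69A.Defs

/-!
# H69A/Par: the parameters

Module `H69A/Par`. Elementary inequalities, `e ≥ 2` and `s ≥ 1`. Write `d = dd e s`; by the definition of
the quotient `s * (d - 1) ≤ e * 2 ^ s < s * d`, so `d ≤ e * 2 ^ s + 1 ≤ 2 ^ e * 2 ^ s` (`e + 1 ≤ 2 ^ e`).

* `pp_spec`: Bertrand's postulate `Nat.exists_prime_lt_and_le_two_mul` for `n = 2 ^ (3 * s + e)`, and
  `LSC.mu_spec`, `LSC.mu_le`, `mu_min`/`mu_eq`; `2 ^ (3 * s + e + 1)` itself is not prime.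
* `mm_lt`: `mm e s ≤ (e * 2 ^ s + 1) * 2 ^ s + 1 ≤ (e + 1) * 4 ^ s ≤ 2 ^ e * 4 ^ s < 2 ^ (3 * s + e)`.
* `two_dp_le`: `2 * (d * pp) < 2 * 2 ^ (e + s) * 2 ^ (3 * s + e + 1) = 2 ^ (4 * s + 2 * e + 2)` and
  `4 * s + 2 * e + 2 ≤ 16 * (s + e) ≤ bb e s`.
* `bits_le`: `2 ^ (s + e) ≥ (s + 1) * (e + 1) ≥ 3 * s + e + 1`.
* `nn_ge`: `nn e s ≥ bb e s * d ≥ 2 ^ (e + 2) * (s * d) ≥ 2 ^ (e + 2) * (e * 2 ^ s)`.
* `err_lt`: `4 * mm e s * 2 ^ ww e s ≤ 4 * 4 ^ e * 8 ^ s < (2 ^ (e + 2) * (e * 2 ^ s)) ^ 3 ≤ nn e s ^ 3`.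
* `nn_lt`: with `d' = dd e (s + 1)`, `X = e * 2 ^ s`: `(s + e) * d ≤ (s + 1 + e) * d'` because
  `(s + e) * (s + 1) * (s * d) ≤ (s + e) * (s + 1) * (X + s)` and
  `(s + 1 + e) * s * ((s + 1) * d') ≥ (s + 1 + e) * s * (2 * X)`, and
  `(s + e) * (s + 1) * (X + s) ≤ (s + 1 + e) * s * (2 * X)`: the difference is
  `X * (s * (s + 1) + e * (s - 1)) - s * (s + e) * (s + 1) ≥ s * (s + 1) * (X - (s + e)) ≥ 0`.
* `nn_le`: `(s + e) * d ≤ (s + e) + (1 + e) * (e * 2 ^ s)`, and `s ≤ 2 ^ s`.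
-/

set_option autoImplicit false

namespace LSA

open LSC

theorem pp_aux {e s : ℕ} : pp e s ≤ 2 ^ (3 * s + e + 1) := by
  obtain ⟨q, hq, h1, h2⟩ := Nat.exists_prime_lt_and_le_two_mul (2 ^ (3 * s + e)) (by positivity)
  have h3 : q ≤ 2 ^ (3 * s + e + 1) := by rw [pow_succ]; omega
  by_contra hcon
  have hlt : q < pp e s := by omega
  exact mu_min (p := fun i => 2 ^ (3 * s + e) ≤ i ∧ i.Prime) hlt ⟨h1.le, hq⟩

theorem pp_spec {e s : ℕ} : (pp e s).Prime ∧ 2 ^ (3 * s + e) ≤ pp e s ∧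
    (1 ≤ 3 * s + e → pp e s < 2 ^ (3 * s + e + 1)) := by
  have h := mu_spec (n := 2 ^ (3 * s + e + 1) + 1) (p := fun i => 2 ^ (3 * s + e) ≤ i ∧ i.Prime)
    (Nat.lt_succ_of_le pp_aux)
  refine ⟨h.2, h.1, fun hk => ?_⟩
  refine lt_of_le_of_ne pp_aux ?_
  intro heq
  have h2 : (pp e s).Prime := h.2
  rw [heq] at h2
  exact Nat.Prime.not_prime_pow (by omega) h2

theorem pow_le_pp (e s : ℕ) : 2 ^ s ≤ pp e s :=
  (Nat.pow_le_pow_right (by norm_num) (by omega)).trans pp_spec.2.1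

theorem dd_le (e s : ℕ) : dd e s ≤ 2 ^ e * 2 ^ s := by
  unfold dd
  have h1 : e * 2 ^ s / s ≤ e * 2 ^ s := Nat.div_le_self _ _
  have h2 : e + 1 ≤ 2 ^ e := Nat.lt_two_pow_self
  have h3 : 1 ≤ 2 ^ s := Nat.one_le_two_pow
  nlinarith

theorem mm_le {e s : ℕ} (hs : 1 ≤ s) : mm e s ≤ 2 ^ e * 4 ^ s := by
  unfold mm dd
  have h1 : e * 2 ^ s / s ≤ e * 2 ^ s := Nat.div_le_self _ _
  have h2 : e + 1 ≤ 2 ^ e := Nat.lt_two_pow_self
  have h3 : 2 ≤ 2 ^ s := by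
    calc 2 = 2 ^ 1 := rfl
      _ ≤ 2 ^ s := Nat.pow_le_pow_right (by norm_num) hs
  have h4 : 4 ^ s = 2 ^ s * 2 ^ s := by rw [← mul_pow]; norm_num
  rw [h4]
  calc (e * 2 ^ s / s + 1) * 2 ^ s + 1 ≤ (e * 2 ^ s + 1) * 2 ^ s + 1 := by gcongr
    _ ≤ (e + 1) * (2 ^ s * 2 ^ s) := by nlinarith
    _ ≤ _ := by gcongr

theorem mm_lt {e s : ℕ} (he : 2 ≤ e) (hs : 1 ≤ s) : mm e s < pp e s := by
  refine lt_of_le_of_lt (mm_le hs) (lt_of_lt_of_le ?_ pp_spec.2.1)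
  have h4 : (4 : ℕ) ^ s = 2 ^ (2 * s) := by rw [pow_mul]; norm_num
  rw [h4, ← pow_add]
  exact Nat.pow_lt_pow_right (by norm_num) (by omega)

theorem two_dp_le {e s : ℕ} (he : 2 ≤ e) (hs : 1 ≤ s) : 2 * (dd e s * pp e s) ≤ 2 ^ bb e s := by
  have h1 := dd_le e s
  have h2 := (pp_spec (e := e) (s := s)).2.2 (by omega)
  have h3 : 16 ≤ 2 ^ (e + 2) := by
    calc 16 = 2 ^ 4 := by norm_num
      _ ≤ 2 ^ (e + 2) := Nat.pow_le_pow_right (by norm_num) (by omega)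
  calc 2 * (dd e s * pp e s) ≤ 2 * ((2 ^ e * 2 ^ s) * 2 ^ (3 * s + e + 1)) := by gcongr
    _ = 2 ^ (4 * s + 2 * e + 2) := by
      rw [← pow_add, ← pow_add, ← pow_succ']
      congr 1
      omega
    _ ≤ 2 ^ bb e s := by
      refine Nat.pow_le_pow_right (by norm_num) ?_
      unfold bb
      calc 4 * s + 2 * e + 2 ≤ 16 * (s + e) := by omega
        _ ≤ _ := by gcongr

theorem bits_le {e s : ℕ} (he : 2 ≤ e) (hs : 1 ≤ s) : 3 * s + e + 1 ≤ 2 ^ ww e s := by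
  unfold ww
  have h1 : s + 1 ≤ 2 ^ s := Nat.lt_two_pow_self
  have h2 : e + 1 ≤ 2 ^ e := Nat.lt_two_pow_self
  rw [pow_add]
  calc 3 * s + e + 1 ≤ (s + 1) * (e + 1) := by nlinarith
    _ ≤ _ := by gcongr

theorem msg_le {e s : ℕ} (hs : 1 ≤ s) : e * 2 ^ s ≤ s * dd e s :=
  (Nat.lt_mul_div_succ (e * 2 ^ s) hs).le

theorem nn_ge {e s : ℕ} (hs : 1 ≤ s) : 2 ^ (e + 2) * (e * 2 ^ s) ≤ nn e s := by
  unfold nn bb
  have h := msg_le (e := e) hs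
  calc 2 ^ (e + 2) * (e * 2 ^ s) ≤ 2 ^ (e + 2) * (s * dd e s) := by gcongr
    _ ≤ 2 ^ (e + 2) * ((s + e) * dd e s) := by gcongr; omega
    _ = 2 ^ (e + 2) * (s + e) * dd e s := by ring
    _ ≤ _ := by omega

theorem err_lt {e s : ℕ} (he : 2 ≤ e) (hs : 1 ≤ s) : 4 * mm e s * 2 ^ ww e s < nn e s ^ 3 := by
  have h1 := mm_le (e := e) hs
  have h2 := nn_ge (e := e) hs
  have h3 : 2 ^ (e + 3 + s) ≤ nn e s := by
    refine le_trans ?_ h2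
    calc 2 ^ (e + 3 + s) = 2 ^ (e + 2) * (2 * 2 ^ s) := by
          rw [← pow_succ', ← pow_add]
          congr 1
          omega
      _ ≤ _ := by gcongr
  calc 4 * mm e s * 2 ^ ww e s ≤ 4 * (2 ^ e * 4 ^ s) * 2 ^ ww e s := by gcongr
    _ = 2 ^ (2 + e + 2 * s + (s + e)) := by
      unfold ww
      rw [pow_add 2 (2 + e + 2 * s) (s + e), pow_add 2 (2 + e) (2 * s), pow_add 2 2 e, pow_mul]
      norm_num
      ring
    _ < 2 ^ ((e + 3 + s) * 3) := Nat.pow_lt_pow_right (by norm_num) (by omega)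
    _ = (2 ^ (e + 3 + s)) ^ 3 := by rw [pow_mul]
    _ ≤ _ := by gcongr

theorem sdd_le' (e s : ℕ) : s * dd e s ≤ e * 2 ^ s + s := by
  unfold dd
  rw [mul_add, mul_one]
  have := Nat.mul_div_le (e * 2 ^ s) s
  omega

theorem dd_step {e s : ℕ} (he : 2 ≤ e) (hs : 1 ≤ s) :
    (s + e) * dd e s ≤ (s + 1 + e) * dd e (s + 1) := by
  have h1 := sdd_le' e s
  have h2 := msg_le (e := e) (s := s + 1) (by omega)
  have h3 : s + e ≤ e * 2 ^ s := by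
    have : s + 1 ≤ 2 ^ s := Nat.lt_two_pow_self
    nlinarith
  rw [pow_succ] at h2
  set X := e * 2 ^ s with hX
  have h2' : 2 * X ≤ (s + 1) * dd e (s + 1) := by
    have : e * (2 ^ s * 2) = 2 * X := by rw [hX]; ring
    omega
  have key : (s + e) * (s + 1) * (X + s) ≤ (s + 1 + e) * s * (2 * X) := by
    obtain ⟨t, rfl⟩ : ∃ t, s = t + 1 := ⟨s - 1, by omega⟩
    have h5 : (t + 1) * (t + 2) * (t + 1 + e) ≤ (t + 1) * (t + 2) * X := by gcongr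
    nlinarith [Nat.zero_le (e * t * X)]
  have h6 : (s * (s + 1)) * ((s + e) * dd e s) ≤ (s * (s + 1)) * ((s + 1 + e) * dd e (s + 1)) := by
    calc (s * (s + 1)) * ((s + e) * dd e s) = (s + e) * (s + 1) * (s * dd e s) := by ring
      _ ≤ (s + e) * (s + 1) * (X + s) := by gcongr
      _ ≤ (s + 1 + e) * s * (2 * X) := key
      _ ≤ (s + 1 + e) * s * ((s + 1) * dd e (s + 1)) := by gcongr
      _ = _ := by ring
  exact Nat.le_of_mul_le_mul_left h6 (by positivity)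

theorem nn_lt {e s : ℕ} (he : 2 ≤ e) (hs : 1 ≤ s) : nn e s < nn e (s + 1) := by
  have h := dd_step he hs
  unfold nn ww bb
  have h2 : 2 ^ (e + 2) * ((s + e) * dd e s) ≤ 2 ^ (e + 2) * ((s + 1 + e) * dd e (s + 1)) := by
    gcongr
  rw [mul_assoc, mul_assoc]
  omega

theorem nn_mono_lt {e : ℕ} (he : 2 ≤ e) {s : ℕ} (hs : 1 ≤ s) : ∀ {s' : ℕ}, s < s' →
    nn e s < nn e s' := by
  intro s'
  induction s' with
  | zero => intro h; omega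
  | succ s' ih =>
    intro h
    rcases Nat.lt_succ_iff_lt_or_eq.1 h with h1 | h1
    · exact (ih h1).trans (nn_lt he (by omega))
    · rw [← h1]; exact nn_lt he hs

theorem nn_inj {e s s' : ℕ} (he : 2 ≤ e) (hs : 1 ≤ s) (hs' : 1 ≤ s') (h : nn e s = nn e s') :
    s = s' := by
  rcases lt_trichotomy s s' with h1 | h1 | h1
  · exact absurd h (nn_mono_lt he hs h1).ne
  · exact h1
  · exact absurd h (nn_mono_lt he hs' h1).ne'

theorem nn_le (e : ℕ) : ∃ c, ∀ s, 1 ≤ s → nn e s ≤ c * 2 ^ s := by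
  refine ⟨(1 + e) + 2 ^ (e + 2) * (e + 1 + (e * 2 ^ e)), fun s _ => ?_⟩
  have h1 := sdd_le' e s
  have h2 := dd_le e s
  have h3 : s ≤ 2 ^ s := Nat.lt_two_pow_self.le
  have h4 : 1 ≤ 2 ^ s := Nat.one_le_two_pow
  unfold nn ww bb
  have h5 : (s + e) * dd e s ≤ (e + 1 + (e * 2 ^ e)) * 2 ^ s := by
    calc (s + e) * dd e s = s * dd e s + e * dd e s := by ring
      _ ≤ (e * 2 ^ s + s) + e * (2 ^ e * 2 ^ s) := by gcongr
      _ ≤ (e * 2 ^ s + 2 ^ s) + e * (2 ^ e * 2 ^ s) := by gcongr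
      _ = _ := by ring
  calc s + e + 2 ^ (e + 2) * (s + e) * dd e s = s + e * 1 + 2 ^ (e + 2) * ((s + e) * dd e s) := by ring
    _ ≤ 2 ^ s + e * 2 ^ s + 2 ^ (e + 2) * ((e + 1 + (e * 2 ^ e)) * 2 ^ s) := by gcongr
    _ = _ := by ring

theorem sdd_le (e : ℕ) : ∃ c, ∀ s, s * dd e s ≤ c * 2 ^ s := by
  refine ⟨e + 1, fun s => ?_⟩
  have h1 := sdd_le' e s
  have h3 : s ≤ 2 ^ s := Nat.lt_two_pow_self.le
  calc s * dd e s ≤ e * 2 ^ s + s := h1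
    _ ≤ e * 2 ^ s + 2 ^ s := by gcongr
    _ = _ := by ring

end LSA
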